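import Pool.Agent.Lib.MP_9c5702_nt.GL.Defs

/-! Factors of forms, denominators. -/

set_option autoImplicit false

namespace Pool.Agent.Lib.MP_9c5702_nt.GL

open MvPolynomial Pool.Agent.Lib.MP_9c5702_nt.Q4 Pool.Agent.Lib.MP_9c5702_nt.QB
  Pool.Agent.Lib.MP_9c5702_nt.QS

/-- the grading variable -/
noncomputable def homfPhi : PQ →+* Polynomial PQ :=
  eval₂Hom (Polynomial.C.comp C) fun i => Polynomial.X * Polynomial.C (X i)

lemma homf_mon (s : Fin 3 →₀ ℕ) (c : ℚ) :
    homfPhi (monomial s c) = Polynomial.monomial s.degree (monomial s c) := by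
  rw [homfPhi, eval₂Hom_monomial, monomial_eq, ← Polynomial.C_mul_X_pow_eq_monomial,
    Finsupp.prod_fintype _ _ (by simp), Finsupp.prod_fintype _ _ (by simp), Finsupp.degree_eq_sum]
  simp only [Fin.prod_univ_three, Fin.sum_univ_three, map_mul, map_pow, RingHom.comp_apply]
  ring

lemma homf_coeff (A : PQ) (k : ℕ) : (homfPhi A).coeff k = homogeneousComponent k A := by
  induction A using MvPolynomial.induction_on' with
  | monomial s c =>
    rw [homf_mon, Polynomial.coeff_monomial,
      homogeneousComponent_of_mem (isHomogeneous_monomial c rfl)]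
    simp only [eq_comm]
  | add p q hp hq => rw [map_add, map_add, Polynomial.coeff_add, hp, hq]

lemma homf_hom (A : PQ) (h : (homfPhi A).natDegree ≤ (homfPhi A).natTrailingDegree) :
    A.IsHomogeneous (homfPhi A).natDegree := by
  rw [← sum_homogeneousComponent A]
  refine IsHomogeneous.sum _ _ _ fun k _ => ?_
  rw [sum_homogeneousComponent A]
  rcases lt_trichotomy k (homfPhi A).natDegree with hk | rfl | hk
  · rw [← homf_coeff, Polynomial.coeff_eq_zero_of_lt_natTrailingDegree (hk.trans_le h)]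
    exact isHomogeneous_zero _ _ _
  · exact homogeneousComponent_isHomogeneous _ _
  · rw [← homf_coeff, Polynomial.coeff_eq_zero_of_natDegree_lt hk]
    exact isHomogeneous_zero _ _ _

theorem hom_fac {A B : PQ} {d : ℕ} (h : (A * B).IsHomogeneous d) (h0 : A * B ≠ 0) :
    ∃ a b : ℕ, a + b = d ∧ A.IsHomogeneous a ∧ B.IsHomogeneous b := by
  have e : homfPhi A * homfPhi B = Polynomial.monomial d (A * B) := by
    rw [← map_mul]
    ext1 k
    rw [homf_coeff, Polynomial.coeff_monomial, homogeneousComponent_of_mem h]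
    simp only [eq_comm]
  have e0 : homfPhi A * homfPhi B ≠ 0 := by
    rw [e]
    exact fun h1 => h0 ((Polynomial.monomial_eq_zero_iff _ _).1 h1)
  have a0 := left_ne_zero_of_mul e0
  have b0 := right_ne_zero_of_mul e0
  have e1 := Polynomial.natDegree_mul a0 b0
  have e2 := Polynomial.natTrailingDegree_mul a0 b0
  rw [e, Polynomial.natDegree_monomial_eq d h0] at e1
  rw [e, Polynomial.natTrailingDegree_monomial h0] at e2
  have a1 := (homfPhi A).natTrailingDegree_le_natDegree
  have b1 := (homfPhi B).natTrailingDegree_le_natDegree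
  exact ⟨_, _, e1.symm, homf_hom A (by omega), homf_hom B (by omega)⟩

theorem clr (G : PQ) (h0 : G ≠ 0) (e D : ℕ) (hG : G.IsHomogeneous e) (he : e ≤ D) :
    ∃ G' : MvPolynomial (Fin 3) ℤ, G' ≠ 0 ∧ G'.IsHomogeneous D ∧
      ∀ P : V, ev P G = 0 → eval P G' = 0 := by
  obtain ⟨b, hb⟩ := IsLocalization.exist_integer_multiples (S := ℚ) (nonZeroDivisors ℤ) G.support
    fun s => coeff s G
  have hb0 : ((b : ℤ) : ℚ) ≠ 0 := by exact_mod_cast nonZeroDivisors.coe_ne_zero b
  obtain ⟨G1, hG1⟩ : C ((b : ℤ) : ℚ) * G ∈ Set.range (map (σ := Fin 3) (Int.castRingHom ℚ)) := by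
    rw [mem_range_map_iff_coeffs_subset]
    intro c hc
    obtain ⟨s, hs, rfl⟩ := mem_coeffs_iff.1 (Finset.mem_coe.1 hc)
    rw [coeff_C_mul]
    by_cases h1 : s ∈ G.support
    · obtain ⟨z, hz⟩ := hb s h1
      exact ⟨z, by simpa using hz⟩
    · exact ⟨0, by simp [notMem_support_iff.1 h1]⟩
  have hinj : Function.Injective (Int.castRingHom ℚ) := Int.cast_injective
  have h1 : G1 ≠ 0 := by
    rintro rfl
    rw [map_zero] at hG1
    exact mul_ne_zero (by simpa using hb0) h0 hG1.symm
  have h2 : G1.IsHomogeneous e := IsHomogeneous.of_map hinj (hG1 ▸ hG.C_mul _)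
  refine ⟨G1 * X 0 ^ (D - e), mul_ne_zero h1 (pow_ne_zero _ (X_ne_zero _)), ?_, fun P hP => ?_⟩
  · have := h2.mul (isHomogeneous_X_pow (R := ℤ) (0 : Fin 3) (D - e))
    rwa [Nat.add_sub_cancel' he] at this
  · have h3 : ((eval P G1 : ℤ) : ℚ) = ev P (map (Int.castRingHom ℚ) G1) := by
      rw [ev, eval_map]
      exact eval₂_comp_left (Int.castRingHom ℚ) (RingHom.id ℤ) P G1
    rw [hG1, ev, map_mul, show eval (fun k => (P k : ℚ)) G = 0 from hP, mul_zero] at h3
    rw [map_mul, Int.cast_eq_zero.1 h3, zero_mul]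

end Pool.Agent.Lib.MP_9c5702_nt.GL
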