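import Pool.Agent.Lib.MP_9c5702_nt.GL.BezH
import Pool.Agent.Lib.MP_9c5702_nt.GL.HomF

/-! The Bezout bound for coprime ternary forms. -/

set_option autoImplicit false

namespace Pool.Agent.Lib.MP_9c5702_nt.GL

open MvPolynomial Pool.Agent.Lib.MP_9c5702_nt.Q4 Pool.Agent.Lib.MP_9c5702_nt.QB
  Pool.Agent.Lib.MP_9c5702_nt.QS

lemma bez_fin (k : ℕ) : FiniteDimensional ℚ (homogeneousSubmodule (Fin 3) ℚ k) :=
  Module.Finite.iff_fg.2 (homogeneousSubmodule_fg (Fin 3) ℚ k)

lemma bez_map (A : PQ) (hA : A ≠ 0) (k : ℕ) :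
    Module.finrank ℚ ((homogeneousSubmodule (Fin 3) ℚ k).map (LinearMap.mulLeft ℚ A)) =
      Module.finrank ℚ (homogeneousSubmodule (Fin 3) ℚ k) :=
  (Submodule.equivMapOfInjective (LinearMap.mulLeft ℚ A) (mul_right_injective₀ hA) _).finrank_eq.symm

/-- evaluation at the points of `W` -/
noncomputable def bezEv (W : Finset V) : PQ →ₗ[ℚ] (W → ℚ) where
  toFun G := fun P => ev P.1 G
  map_add' G G' := funext fun P => map_add (eval fun k => (P.1 k : ℚ)) G G'
  map_smul' c G := funext fun _ => smul_eval _ G c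

lemma bez_ker (n : ℤ) (hn : n ≠ 0) (W : Finset V) (hF : ∀ P ∈ W, F P = n) (k : ℕ)
    (hk : W.card ≤ k) :
    W.card + Module.finrank ℚ
      (homogeneousSubmodule (Fin 3) ℚ k ⊓ LinearMap.ker (bezEv W) : Submodule ℚ PQ) =
      Module.finrank ℚ (homogeneousSubmodule (Fin 3) ℚ k) := by
  classical
  have := bez_fin k
  have h := ((bezEv W).domRestrict (homogeneousSubmodule (Fin 3) ℚ k)).finrank_range_add_finrank_ker
  have h1 : LinearMap.range ((bezEv W).domRestrict (homogeneousSubmodule (Fin 3) ℚ k)) = ⊤ := by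
    rw [eq_top_iff, ← (Pi.basisFun ℚ W).span_eq, Submodule.span_le]
    rintro _ ⟨P0, rfl⟩
    obtain ⟨G, g1, g2, g3⟩ := ev_sep n hn W hF k hk P0.1 P0.2
    refine ⟨(ev P0.1 G)⁻¹ • ⟨G, g1⟩, ?_⟩
    rw [map_smul]
    funext P
    change (ev P0.1 G)⁻¹ * ev P.1 G = _
    by_cases hP : P = P0
    · rw [hP, inv_mul_cancel₀ g2]
      simp
    · rw [g3 P.1 P.2 fun e => hP (Subtype.ext e), mul_zero]
      simp [hP]
  rw [h1, finrank_top, Module.finrank_fintype_fun_eq_card, Fintype.card_coe,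
    LinearMap.ker_domRestrict, ← Submodule.finrank_map_subtype_eq, Submodule.map_comap_subtype] at h
  exact h

theorem bez (n : ℤ) (hn : n ≠ 0) (W : Finset V) (hF : ∀ P ∈ W, F P = n) (A B : PQ) (a b : ℕ)
    (hA : A.IsHomogeneous a) (hB : B.IsHomogeneous b) (hA0 : A ≠ 0) (hB0 : B ≠ 0)
    (hAB : IsRelPrime A B) (h0 : ∀ P ∈ W, ev P A = 0 ∧ ev P B = 0) : W.card ≤ a * b := by
  obtain ⟨j, hj⟩ : ∃ j, j = W.card := ⟨_, rfl⟩
  have f1 := bez_fin j
  have f2 := bez_fin (j + a)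
  have f3 := bez_fin (j + b)
  have f4 := bez_fin (j + a + b)
  have k1 := bez_ker n hn W hF (j + a + b) (by omega)
  have k2 := Submodule.finrank_sup_add_finrank_inf_eq
    ((homogeneousSubmodule (Fin 3) ℚ (j + b)).map (LinearMap.mulLeft ℚ A))
    ((homogeneousSubmodule (Fin 3) ℚ (j + a)).map (LinearMap.mulLeft ℚ B))
  have k3 : (homogeneousSubmodule (Fin 3) ℚ (j + b)).map (LinearMap.mulLeft ℚ A) ⊔
      (homogeneousSubmodule (Fin 3) ℚ (j + a)).map (LinearMap.mulLeft ℚ B) ≤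
      homogeneousSubmodule (Fin 3) ℚ (j + a + b) ⊓ LinearMap.ker (bezEv W) := by
    refine sup_le ?_ ?_
    · rintro _ ⟨G, hG, rfl⟩
      refine ⟨?_, funext fun P => ?_⟩
      · have := hA.mul hG
        rwa [show a + (j + b) = j + a + b by ring] at this
      · change eval _ (A * G) = 0
        rw [map_mul, show eval (fun k => (P.1 k : ℚ)) A = 0 from (h0 P.1 P.2).1, zero_mul]
    · rintro _ ⟨G, hG, rfl⟩
      refine ⟨?_, funext fun P => ?_⟩
      · have := hB.mul hG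
        rwa [show b + (j + a) = j + a + b by ring] at this
      · change eval _ (B * G) = 0
        rw [map_mul, show eval (fun k => (P.1 k : ℚ)) B = 0 from (h0 P.1 P.2).2, zero_mul]
  have k4 : (homogeneousSubmodule (Fin 3) ℚ (j + b)).map (LinearMap.mulLeft ℚ A) ⊓
      (homogeneousSubmodule (Fin 3) ℚ (j + a)).map (LinearMap.mulLeft ℚ B) ≤
      (homogeneousSubmodule (Fin 3) ℚ j).map (LinearMap.mulLeft ℚ (A * B)) := by
    rintro _ ⟨⟨G, -, rfl⟩, G', hG', e⟩
    have e' : B * G' = A * G := e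
    obtain ⟨c, rfl⟩ : A ∣ G' := hAB.dvd_of_dvd_mul_left ⟨G, e'⟩
    refine ⟨c, ?_, by change A * B * c = A * G; rw [← e']; ring⟩
    by_cases hc : c = 0
    · rw [hc]
      exact zero_mem _
    · obtain ⟨a', c', h1, h2, h3⟩ := hom_fac hG' (mul_ne_zero hA0 hc)
      have := hA.inj_right h2 hA0
      obtain rfl : c' = j := by omega
      exact h3
  have k5 := Submodule.finrank_mono k3
  have k6 := Submodule.finrank_mono k4
  rw [bez_map _ hA0, bez_map _ hB0] at k2
  rw [bez_map _ (mul_ne_zero hA0 hB0)] at k6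
  have r1 := hom_rank j
  have r2 := hom_rank (j + a)
  have r3 := hom_rank (j + b)
  have r4 := hom_rank (j + a + b)
  have r5 : (j + a + b + 1) * (j + a + b + 2) + (j + 1) * (j + 2) =
      (j + a + 1) * (j + a + 2) + (j + b + 1) * (j + b + 2) + 2 * (a * b) := by ring
  omega

end Pool.Agent.Lib.MP_9c5702_nt.GL
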