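import Pool.Agent.Lib.MP_9c5702_nt.GL.Defs

/-! Ternary forms: dimension and separation of points. -/

set_option autoImplicit false

namespace Pool.Agent.Lib.MP_9c5702_nt.GL

open MvPolynomial Pool.Agent.Lib.MP_9c5702_nt.Q4 Pool.Agent.Lib.MP_9c5702_nt.QB
  Pool.Agent.Lib.MP_9c5702_nt.QS

theorem hom_rank (k : ℕ) :
    2 * Module.finrank ℚ (homogeneousSubmodule (Fin 3) ℚ k) = (k + 1) * (k + 2) := by
  have e : {d : Fin 3 →₀ ℕ | d.degree = k} =
      ((Finset.univ : Finset (Fin 3)).finsuppAntidiag k : Set (Fin 3 →₀ ℕ)) := by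
    ext d
    simp [Finsupp.degree_eq_sum]
  have h : Module.finrank ℚ (homogeneousSubmodule (Fin 3) ℚ k) =
      ((Finset.univ : Finset (Fin 3)).finsuppAntidiag k).card := by
    rw [homogeneousSubmodule_eq_finsupp_supported, e]
    exact (Module.finrank_eq_card_basis (basisRestrictSupport ℚ _)).trans (Fintype.card_coe _)
  rw [h, Finset.card_finsuppAntidiag_nat_eq_choose, Finset.card_univ, Fintype.card_fin,
    show 3 + k - 1 = k + 2 by omega, Nat.choose_symm_add, Nat.choose_two_right,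
    show k + 2 - 1 = k + 1 by omega, mul_comm (k + 2),
    Nat.mul_div_cancel' (Nat.even_mul_succ_self (k + 1)).two_dvd]

lemma bezh_lin (n : ℤ) (hn : n ≠ 0) (P0 P : V) (h0 : F P0 = n) (h1 : F P = n) (hne : P ≠ P0) :
    ∃ L : PQ, L.IsHomogeneous 1 ∧ ev P0 L ≠ 0 ∧ ev P L = 0 := by
  have : ∃ i j, P0 i * P j - P0 j * P i ≠ 0 := by
    by_contra hc
    push Not at hc
    refine hne (funext fun k => ?_)
    have h2 : n * P k ^ 3 = n * P0 k ^ 3 := by
      have e : ∀ i, P0 i ^ 3 * P k ^ 3 = P0 k ^ 3 * P i ^ 3 := fun i => by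
        rw [← mul_pow, ← mul_pow, sub_eq_zero.1 (hc i k)]
      unfold F at h0 h1
      linear_combination e 0 + e 1 + e 2 - P k ^ 3 * h0 + P0 k ^ 3 * h1
    exact (Odd.pow_injective (by decide : Odd 3)) (mul_left_cancel₀ hn h2)
  obtain ⟨i, j, h⟩ := this
  refine ⟨C (P j : ℚ) * X i - C (P i : ℚ) * X j,
    (isHomogeneous_C_mul_X _ _).sub (isHomogeneous_C_mul_X _ _), ?_, ?_⟩
  · have h' : ((P0 i * P j - P0 j * P i : ℤ) : ℚ) ≠ 0 := by exact_mod_cast h
    simp only [ev, map_sub, map_mul, eval_C, eval_X]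
    push_cast at h'
    exact fun e => h' (by linear_combination e)
  · simp only [ev, map_sub, map_mul, eval_C, eval_X]
    ring

theorem ev_sep (n : ℤ) (hn : n ≠ 0) (W : Finset V) (hF : ∀ P ∈ W, F P = n) (k : ℕ)
    (hk : W.card ≤ k) (P0 : V) (hP0 : P0 ∈ W) :
    ∃ G : PQ, G.IsHomogeneous k ∧ ev P0 G ≠ 0 ∧ ∀ P ∈ W, P ≠ P0 → ev P G = 0 := by
  classical
  have h1 : ∀ P : V, ∃ L : PQ, P ∈ W.erase P0 →
      L.IsHomogeneous 1 ∧ ev P0 L ≠ 0 ∧ ev P L = 0 := fun P => by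
    by_cases h : P ∈ W.erase P0
    · obtain ⟨L, hL⟩ := bezh_lin n hn P0 P (hF P0 hP0) (hF P (Finset.mem_of_mem_erase h))
        (Finset.ne_of_mem_erase h)
      exact ⟨L, fun _ => hL⟩
    · exact ⟨0, fun h' => absurd h' h⟩
  choose L hL using h1
  obtain ⟨i, hi⟩ : ∃ i, P0 i ≠ 0 := by
    by_contra hc
    push Not at hc
    exact hn (by rw [← hF P0 hP0]; simp [F, hc])
  have hc : (W.erase P0).card ≤ k := Finset.card_erase_le.trans hk
  refine ⟨(∏ P ∈ W.erase P0, L P) * X i ^ (k - (W.erase P0).card), ?_, ?_, fun P hP hne => ?_⟩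
  · have h2 := (IsHomogeneous.prod (W.erase P0) L (fun _ => 1) fun P hP => (hL P hP).1).mul
      (isHomogeneous_X_pow (R := ℚ) i (k - (W.erase P0).card))
    rwa [Finset.sum_const, smul_eq_mul, mul_one, Nat.add_sub_cancel' hc] at h2
  · rw [ev, map_mul, map_prod, map_pow, eval_X]
    exact mul_ne_zero (Finset.prod_ne_zero_iff.2 fun P hP => (hL P hP).2.1)
      (pow_ne_zero _ (by exact_mod_cast hi))
  · have h2 := Finset.mem_erase.2 ⟨hne, hP⟩
    rw [ev, map_mul, map_prod, Finset.prod_eq_zero h2 (hL P h2).2.2, zero_mul]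

end Pool.Agent.Lib.MP_9c5702_nt.GL
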