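import Pool.Agent.Lib.MP_9c5702_nt.GL.Bez

/-! The chain of auxiliary forms. -/

set_option autoImplicit false

namespace Pool.Agent.Lib.MP_9c5702_nt.GL

open MvPolynomial Pool.Agent.Lib.MP_9c5702_nt.Q4 Pool.Agent.Lib.MP_9c5702_nt.QB
  Pool.Agent.Lib.MP_9c5702_nt.QS

lemma chain_mul (P : V) (A B : PQ) : ev P (A * B) = ev P A * ev P B := map_mul _ _ _

lemma chain_unit (P : V) {A : PQ} (h : IsUnit A) : ev P A ≠ 0 :=
  (h.map (eval fun k => (P k : ℚ))).ne_zero

lemma chain_dvd (P : V) {A B : PQ} (h : A ∣ B) (h0 : ev P A = 0) : ev P B = 0 := by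
  obtain ⟨c, rfl⟩ := h
  rw [chain_mul, h0, zero_mul]

lemma chain_const {A : PQ} (h : A.IsHomogeneous 0) (h0 : A ≠ 0) : IsUnit A := by
  have h1 : A = C (coeff 0 A) := totalDegree_eq_zero_iff_eq_C.1 (Nat.le_zero.1 h.totalDegree_le)
  have h2 : coeff 0 A ≠ 0 := fun h2 => h0 (by rw [h1, h2, C_0])
  rw [h1]
  exact h2.isUnit.map C

theorem few_curves (W : Finset V) (G : PQ) (hG0 : G ≠ 0) (d e E : ℕ) (hG : G.IsHomogeneous d)
    (hW : ∀ P ∈ W, ∃ h : PQ, h ∣ G ∧ h.totalDegree ≤ e ∧ ev P h = 0)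
    (hE : ∀ W' : Finset V, W' ⊆ W → ∀ (h : PQ) (e' : ℕ), h ≠ 0 → e' ≤ e → h.IsHomogeneous e' →
      (∀ P ∈ W', ev P h = 0) → W'.card ≤ E) : W.card ≤ d * E := by
  classical
  induction d using Nat.strong_induction_on generalizing W G with
  | _ d ih =>
  rcases W.eq_empty_or_nonempty with rfl | ⟨P0, hP0⟩
  · simp
  have hu : ¬ IsUnit G := fun hu => by
    obtain ⟨h, h1, -, h3⟩ := hW P0 hP0
    exact chain_unit P0 hu (chain_dvd P0 h1 h3)
  obtain ⟨f, hf, G', rfl⟩ := WfDvdMonoid.exists_irreducible_factor hu hG0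
  obtain ⟨a, b, hab, ha, hb⟩ := hom_fac hG hG0
  have ha1 : a ≠ 0 := fun h => hf.not_isUnit (chain_const (h ▸ ha) hf.ne_zero)
  have hG' : G' ≠ 0 := right_ne_zero_of_mul hG0
  have hfa : f.totalDegree = a := ha.totalDegree hf.ne_zero
  have h1 : (W.filter fun P => a ≤ e ∧ ev P f = 0).card ≤ E := by
    by_cases hae : a ≤ e
    · exact hE _ (Finset.filter_subset _ _) f a hf.ne_zero hae ha
        fun P hP => (Finset.mem_filter.1 hP).2.2
    · simp [hae]
  have h2 : (W.filter fun P => ¬ (a ≤ e ∧ ev P f = 0)).card ≤ b * E := by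
    refine ih b (by omega) _ G' hG' hb (fun P hP => ?_)
      fun W' hW' => hE W' (hW'.trans (Finset.filter_subset _ _))
    obtain ⟨hPW, hP2⟩ := Finset.mem_filter.1 hP
    obtain ⟨h, h1, h2, h3⟩ := hW P hPW
    have h0 : h ≠ 0 := ne_zero_of_dvd_ne_zero hG0 h1
    by_cases hfh : f ∣ h
    · have h4 := totalDegree_le_of_dvd_of_isDomain hfh h0
      obtain ⟨h', rfl⟩ := hfh
      refine ⟨h', (mul_dvd_mul_iff_left hf.ne_zero).1 h1,
        (totalDegree_le_of_dvd_of_isDomain (Dvd.intro_left _ rfl) h0).trans h2, ?_⟩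
      rw [chain_mul] at h3
      exact (mul_eq_zero.1 h3).resolve_left fun h5 => hP2 ⟨by omega, h5⟩
    · exact ⟨h, (hf.isRelPrime_iff_not_dvd.2 hfh).symm.dvd_of_dvd_mul_left h1, h2, h3⟩
  rw [← Finset.card_filter_add_card_filter_not (s := W) fun P => a ≤ e ∧ ev P f = 0]
  calc _ ≤ E + b * E := Nat.add_le_add h1 h2
    _ = (1 + b) * E := by ring
    _ ≤ d * E := Nat.mul_le_mul_right _ (by omega)

lemma chain_down (n : ℤ) (hn : n ≠ 0) (W : Finset V) (hF : ∀ P ∈ W, F P = n) (J N : ℕ)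
    (r : ℕ → V → V → Prop) (d : ℕ → ℕ) (hcov : ∀ j < J, Cov (W : Set V) (r j) N)
    (hform : ∀ j ≤ J, ∀ W' : Finset V, W' ⊆ W → (∀ i < j, Pw (r i) W') →
      ∃ G : PQ, G ≠ 0 ∧ G.IsHomogeneous (d j) ∧ ∀ P ∈ W', ev P G = 0)
    (G0 : PQ) (m : ℕ) : ∀ j, j + m = J → ∀ W' : Finset V, W' ⊆ W →
      (∀ P ∈ W', ∀ h : PQ, h ∣ G0 → h.totalDegree ≤ d J → ev P h ≠ 0) → (∀ i < j, Pw (r i) W') →
      ∀ (H : PQ) (e : ℕ), H ≠ 0 → H ∣ G0 → H.IsHomogeneous e → e ≤ d j → (∀ P ∈ W', ev P H = 0) →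
      W'.card ≤ ∑ i ∈ Finset.range m, N ^ (i + 1) * (d (j + i) * d (j + i + 1)) := by
  classical
  induction m with
  | zero =>
    intro j hj W' _ h2 _ H e _ hH hHe he h0
    obtain rfl : j = J := by omega
    have : W' = ∅ := Finset.eq_empty_of_forall_notMem fun P hP =>
      h2 P hP H hH (hHe.totalDegree_le.trans he) (h0 P hP)
    simp [this]
  | succ m ih =>
    intro j hj W' hW' h2 h3 H e hH0 hH hHe he h0
    have key := hcov j (by omega) W'
      (d j * d (j + 1) + ∑ i ∈ Finset.range m, N ^ (i + 1) * (d (j + 1 + i) * d (j + 1 + i + 1)))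
      (fun P hP => hW' hP) (fun W2 hW2 hp => by
        have h4 : ∀ i < j + 1, Pw (r i) W2 := fun i hi => by
          rcases Nat.lt_succ_iff_lt_or_eq.1 hi with hi | rfl
          · exact fun P hP P' hP' => h3 i hi P (hW2 hP) P' (hW2 hP')
          · exact hp
        obtain ⟨G, hG0, hG, hGv⟩ := hform (j + 1) (by omega) W2 (hW2.trans hW') h4
        obtain ⟨H1, G1, c, hrel, rfl, rfl⟩ :=
          UniqueFactorizationMonoid.exists_reduced_factors H hH0 G
        obtain ⟨a, b, hab, -, hb⟩ := hom_fac hHe hH0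
        obtain ⟨a', b', hab', ha', hb'⟩ := hom_fac hG hG0
        have k1 := ih (j + 1) (by omega) (W2.filter fun P => ev P c = 0)
          ((Finset.filter_subset _ _).trans (hW2.trans hW'))
          (fun P hP => h2 P (hW2 (Finset.mem_filter.1 hP).1))
          (fun i hi P hP P' hP' => h4 i hi P (Finset.mem_filter.1 hP).1 P'
            (Finset.mem_filter.1 hP').1)
          c a' (left_ne_zero_of_mul hG0) ((Dvd.intro _ rfl).trans hH) ha' (by omega)
          fun P hP => (Finset.mem_filter.1 hP).2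
        have k2 := bez n hn (W2.filter fun P => ¬ ev P c = 0)
          (fun P hP => hF P (hW' (hW2 (Finset.mem_filter.1 hP).1))) H1 G1 b b' hb hb'
          (right_ne_zero_of_mul hH0) (right_ne_zero_of_mul hG0) hrel fun P hP => by
            obtain ⟨p1, p2⟩ := Finset.mem_filter.1 hP
            have e1 := h0 P (hW2 p1)
            have e2 := hGv P p1
            rw [chain_mul] at e1 e2
            exact ⟨(mul_eq_zero.1 e1).resolve_left p2, (mul_eq_zero.1 e2).resolve_left p2⟩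
        have k3 : b * b' ≤ d j * d (j + 1) := Nat.mul_le_mul (by omega) (by omega)
        rw [← Finset.card_filter_add_card_filter_not (s := W2) fun P => ev P c = 0]
        omega)
    refine key.trans (le_of_eq ?_)
    rw [Finset.sum_range_succ', mul_add, Finset.mul_sum, add_comm]
    congr 1
    · refine Finset.sum_congr rfl fun i _ => ?_
      rw [show j + 1 + i = j + (i + 1) by omega]
      ring
    · simp

theorem chain (n : ℤ) (hn : n ≠ 0) (W : Finset V) (hF : ∀ P ∈ W, F P = n) (J N E : ℕ)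
    (r : ℕ → V → V → Prop) (d : ℕ → ℕ) (hcov : ∀ j < J, Cov (W : Set V) (r j) N)
    (hform : ∀ j ≤ J, ∀ W' : Finset V, W' ⊆ W → (∀ i < j, Pw (r i) W') →
      ∃ G : PQ, G ≠ 0 ∧ G.IsHomogeneous (d j) ∧ ∀ P ∈ W', ev P G = 0)
    (hE : ∀ W' : Finset V, W' ⊆ W → ∀ (h : PQ) (e' : ℕ), h ≠ 0 → e' ≤ d J → h.IsHomogeneous e' →
      (∀ P ∈ W', ev P h = 0) → W'.card ≤ E) :
    W.card ≤ d 0 * E + ∑ j ∈ Finset.range J, N ^ (j + 1) * (d j * d (j + 1)) := by
  classical
  obtain ⟨G0, hG0, hG, hv⟩ := hform 0 (Nat.zero_le _) W le_rfl (by simp)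
  have h1 := few_curves
    (W.filter fun P => ∃ h : PQ, h ∣ G0 ∧ h.totalDegree ≤ d J ∧ ev P h = 0) G0 hG0 (d 0) (d J) E hG
    (fun P hP => (Finset.mem_filter.1 hP).2)
    fun W' hW' => hE W' (hW'.trans (Finset.filter_subset _ _))
  have h2 := chain_down n hn W hF J N r d hcov hform G0 J 0 (by omega)
    (W.filter fun P => ¬ ∃ h : PQ, h ∣ G0 ∧ h.totalDegree ≤ d J ∧ ev P h = 0)
    (Finset.filter_subset _ _)
    (fun P hP h a1 a2 a3 => (Finset.mem_filter.1 hP).2 ⟨h, a1, a2, a3⟩) (by simp)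
    G0 (d 0) hG0 dvd_rfl hG le_rfl fun P hP => hv P (Finset.mem_filter.1 hP).1
  simp only [zero_add] at h2
  rw [← Finset.card_filter_add_card_filter_not (s := W)
    fun P => ∃ h : PQ, h ∣ G0 ∧ h.totalDegree ≤ d J ∧ ev P h = 0]
  exact Nat.add_le_add h1 h2

end Pool.Agent.Lib.MP_9c5702_nt.GL
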