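import Pool.Agent.Lib.MP_9c5702_nt.GL.Defs
import Pool.Agent.Lib.MP_9c5702_nt.Q4.Primes

/-! Auxiliary primes and the degrees of the chain. -/

set_option autoImplicit false

namespace Pool.Agent.Lib.MP_9c5702_nt.GL

open MvPolynomial Pool.Agent.Lib.MP_9c5702_nt.Q4 Pool.Agent.Lib.MP_9c5702_nt.QB
  Pool.Agent.Lib.MP_9c5702_nt.QS

theorem primes_good (Y J E m : ℕ) (hY : 1 ≤ Y) (hm : 1 ≤ m) (hmY : m < Y ^ E) :
    ∃ l : ℕ → ℕ, (∀ i < J, (l i).Prime ∧ Y < l i ∧ l i ≤ 2 ^ (J + E) * Y ∧ ¬ l i ∣ m) ∧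
      ∀ i < J, ∀ j < J, l i = l j → i = j := by
  obtain ⟨S, hS, h⟩ := primes_list Y (J + E) hY
  have h1 : (S.filter fun l => l ∣ m).card < E := by
    have a1 : ∏ l ∈ S.filter fun l => l ∣ m, l ≤ m := Nat.le_of_dvd hm (Finset.prod_primes_dvd m
      (fun l hl => (h l (Finset.mem_filter.1 hl).1).1.prime) fun l hl => (Finset.mem_filter.1 hl).2)
    have a2 := Finset.pow_card_le_prod (S.filter fun l => l ∣ m) (fun l => l) Y
      fun l hl => (h l (Finset.mem_filter.1 hl).1).2.1.le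
    by_contra c
    have := Nat.pow_le_pow_right hY (not_lt.1 c)
    omega
  have h2 := Finset.card_filter_add_card_filter_not (s := S) fun l => l ∣ m
  have h3 : J ≤ (S.filter fun l => ¬ l ∣ m).card := by omega
  let e := (S.filter fun l => ¬ l ∣ m).orderEmbOfCardLe h3
  refine ⟨fun i => if hi : i < J then e ⟨i, hi⟩ else 0, fun i hi => ?_, fun i hi j hj c => ?_⟩
  · obtain ⟨a, b⟩ := Finset.mem_filter.1 (Finset.orderEmbOfCardLe_mem _ h3 ⟨i, hi⟩)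
    simp only [dif_pos hi]
    exact ⟨(h _ a).1, (h _ a).2.1, (h _ a).2.2, b⟩
  · simp only [dif_pos hi, dif_pos hj] at c
    exact congrArg Fin.val (e.injective c)

theorem chain_sum (Y K0 D0 c J J0 : ℕ) (hY : 1 ≤ Y) (hc : 1 ≤ c) (hJ : J ≤ J0)
    (hK : ∀ j < J, Y ^ j ≤ K0) :
    ∑ j ∈ Finset.range J, (c * Y ^ 2) ^ (j + 1) *
      (3 * (D0 + K0 / Y ^ j + 1) * (3 * (D0 + K0 / Y ^ (j + 1) + 1))) ≤
      J0 * c ^ J0 * (9 * (D0 + 2) ^ 2) * (Y ^ 2 * K0 ^ 2) := by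
  refine le_trans (Finset.sum_le_card_nsmul _ _ (c ^ J0 * (9 * (D0 + 2) ^ 2) * (Y ^ 2 * K0 ^ 2))
    fun j hj => ?_) ?_
  · have hj := Finset.mem_range.1 hj
    have a1 := hK j hj
    have a2 : Y ^ j * (D0 + K0 / Y ^ j + 1) ≤ (D0 + 2) * K0 := by
      have := Nat.mul_div_le K0 (Y ^ j)
      have := Nat.mul_le_mul_right D0 a1
      nlinarith
    have a3 : Y ^ j * (D0 + K0 / Y ^ (j + 1) + 1) ≤ (D0 + 2) * K0 := by
      refine le_trans (Nat.mul_le_mul_left _ ?_) a2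
      have := Nat.div_le_div_left (a := K0) (Nat.pow_le_pow_right hY (Nat.le_add_right j 1))
        (Nat.pow_pos hY)
      omega
    have a4 : c ^ (j + 1) ≤ c ^ J0 := Nat.pow_le_pow_right hc (by omega)
    calc _ = c ^ (j + 1) * 9 * Y ^ 2 * (Y ^ j * (D0 + K0 / Y ^ j + 1) *
          (Y ^ j * (D0 + K0 / Y ^ (j + 1) + 1))) := by ring
      _ ≤ c ^ J0 * 9 * Y ^ 2 * ((D0 + 2) * K0 * ((D0 + 2) * K0)) := by gcongr
      _ = _ := by ring
  · rw [Finset.card_range, smul_eq_mul, mul_assoc J0, mul_assoc J0]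
    exact Nat.mul_le_mul_right _ hJ

end Pool.Agent.Lib.MP_9c5702_nt.GL
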