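import Pool.Agent.Lib.MP_9c5702_nt.GL.Defs

/-! The number of points modulo a prime. -/

set_option autoImplicit false

namespace Pool.Agent.Lib.MP_9c5702_nt.GL

open MvPolynomial Pool.Agent.Lib.MP_9c5702_nt.Q4 Pool.Agent.Lib.MP_9c5702_nt.QB
  Pool.Agent.Lib.MP_9c5702_nt.QS

section cntaux

variable {p : ℕ} [Fact p.Prime]

/-- the cubic exponential sum -/
noncomputable def cntS (t : ZMod p) : ℂ := ∑ x : ZMod p, ZMod.stdAddChar (t * x ^ 3)

lemma cnt_orth (a : ZMod p) :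
    ∑ t : ZMod p, ZMod.stdAddChar (t * a) = if a = 0 then (p : ℂ) else 0 := by
  rw [AddChar.sum_mulShift a (ZMod.isPrimitive_stdAddChar p), ZMod.card]
  split_ifs <;> simp

lemma cnt_root (a : ZMod p) : (Finset.univ.filter fun x : ZMod p => x ^ 3 = a).card ≤ 3 := by
  refine le_trans (Finset.card_le_card (t := (Polynomial.nthRoots 3 a).toFinset) ?_)
    ((Multiset.toFinset_card_le _).trans (Polynomial.card_nthRoots 3 a))
  intro x hx
  rw [Multiset.mem_toFinset, Polynomial.mem_nthRoots (by norm_num)]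
  exact (Finset.mem_filter.1 hx).2

lemma cnt_zero : cntS (0 : ZMod p) = p := by simp [cntS]

lemma cnt_sq : ∑ t ∈ Finset.univ.erase (0 : ZMod p), ‖cntS t‖ ^ 2 ≤ 2 * (p : ℝ) ^ 2 := by
  have h1 : ∀ t : ZMod p, ((‖cntS t‖ ^ 2 : ℝ) : ℂ) =
      ∑ y : ZMod p, ∑ x : ZMod p, ZMod.stdAddChar (t * (x ^ 3 - y ^ 3)) := fun t => by
    rw [Complex.ofReal_pow, ← Complex.conj_mul', cntS, map_sum, Finset.sum_mul_sum]
    refine Finset.sum_congr rfl fun y _ => Finset.sum_congr rfl fun x _ => ?_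
    rw [← AddChar.map_neg_eq_conj, ← AddChar.map_add_eq_mul]
    congr 1; ring
  have h2 : ((∑ t : ZMod p, ‖cntS t‖ ^ 2 : ℝ) : ℂ) = ((∑ y : ZMod p,
      ((Finset.univ.filter fun x : ZMod p => x ^ 3 = y ^ 3).card : ℝ) * p : ℝ) : ℂ) := by
    rw [Complex.ofReal_sum, Finset.sum_congr rfl fun t _ => h1 t, Finset.sum_comm,
      Complex.ofReal_sum]
    refine Finset.sum_congr rfl fun y _ => ?_
    rw [Finset.sum_comm]
    simp only [cnt_orth, sub_eq_zero]
    rw [← Finset.sum_filter]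
    simp
  have h3 := Complex.ofReal_injective h2
  have h4 : ∑ y : ZMod p, ((Finset.univ.filter fun x : ZMod p => x ^ 3 = y ^ 3).card : ℝ) * p ≤
      ∑ _y : ZMod p, (3 : ℝ) * p := Finset.sum_le_sum fun y _ => by
    gcongr; exact_mod_cast cnt_root (y ^ 3)
  rw [← Finset.add_sum_erase _ _ (Finset.mem_univ (0 : ZMod p)), cnt_zero] at h3
  simp only [Finset.sum_const, Finset.card_univ, ZMod.card, nsmul_eq_mul,
    Complex.norm_natCast] at h3 h4
  nlinarith

lemma cnt_scale (t c : ZMod p) (hc : c ≠ 0) : cntS (t * c ^ 3) = cntS t := by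
  unfold cntS
  refine Fintype.sum_equiv (Equiv.mulLeft₀ c hc) _ _ fun x => ?_
  congr 1
  simp only [Equiv.mulLeft₀_apply]; ring

lemma cnt_max (t : ZMod p) (ht : t ≠ 0) : ‖cntS t‖ ≤ 3 * ((Nat.sqrt p + 1 : ℕ) : ℝ) := by
  have hp : (2 : ℝ) ≤ p := by exact_mod_cast (Fact.out : p.Prime).two_le
  have h1 : ∑ c ∈ Finset.univ.erase (0 : ZMod p), ‖cntS (t * c ^ 3)‖ ^ 2 =
      ((p : ℝ) - 1) * ‖cntS t‖ ^ 2 := by
    rw [Finset.sum_congr rfl fun c hc => by rw [cnt_scale t c (Finset.ne_of_mem_erase hc)],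
      Finset.sum_const, Finset.card_erase_of_mem (Finset.mem_univ _), Finset.card_univ, ZMod.card,
      nsmul_eq_mul, Nat.cast_sub (Fact.out : p.Prime).one_le, Nat.cast_one]
  have h2 : ∑ c ∈ Finset.univ.erase (0 : ZMod p), ‖cntS (t * c ^ 3)‖ ^ 2 ≤
      ∑ s ∈ Finset.univ.erase (0 : ZMod p), 3 * ‖cntS s‖ ^ 2 := by
    rw [← Finset.sum_fiberwise_of_maps_to (t := Finset.univ.erase (0 : ZMod p))
      (g := fun c => t * c ^ 3) fun c hc => Finset.mem_erase.2
        ⟨mul_ne_zero ht (pow_ne_zero _ (Finset.ne_of_mem_erase hc)), Finset.mem_univ _⟩]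
    refine Finset.sum_le_sum fun s _ => ?_
    rw [Finset.sum_congr rfl fun c hc => by rw [(Finset.mem_filter.1 hc).2], Finset.sum_const,
      nsmul_eq_mul]
    gcongr
    have : ((Finset.univ.erase (0 : ZMod p)).filter fun c => t * c ^ 3 = s).card ≤ 3 := by
      refine le_trans (Finset.card_le_card fun c hc => ?_) (cnt_root (s / t))
      refine Finset.mem_filter.2 ⟨Finset.mem_univ _, ?_⟩
      rw [← (Finset.mem_filter.1 hc).2]; field_simp
    exact_mod_cast this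
  rw [← Finset.mul_sum, h1] at h2
  have h3 := cnt_sq (p := p)
  have h4 : (p : ℝ) + 1 ≤ ((Nat.sqrt p + 1 : ℕ) : ℝ) ^ 2 := by
    exact_mod_cast Nat.succ_le_of_lt (Nat.lt_succ_sqrt' p)
  refine abs_le_of_sq_le_sq' ?_ (by positivity) |>.2
  refine le_of_mul_le_mul_left ?_ (by linarith : (0 : ℝ) < p - 1)
  nlinarith

lemma cnt_sol (a : ZMod p) : (Finset.univ.filter fun x : Fin 3 → ZMod p =>
    x 0 ^ 3 + x 1 ^ 3 + x 2 ^ 3 = a).card ≤ kk p ^ 2 := by
  have hp : (0 : ℝ) < p := by exact_mod_cast (Fact.out : p.Prime).pos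
  set N := (Finset.univ.filter fun x : Fin 3 → ZMod p =>
    x 0 ^ 3 + x 1 ^ 3 + x 2 ^ 3 = a).card with hN
  have h1 : ∀ t : ZMod p, ZMod.stdAddChar (-(t * a)) * cntS t ^ 3 = ∑ x : Fin 3 → ZMod p,
      ZMod.stdAddChar (t * (x 0 ^ 3 + x 1 ^ 3 + x 2 ^ 3 - a)) := fun t => by
    rw [cntS, Finset.sum_pow', Fintype.piFinset_univ, Finset.mul_sum]
    refine Finset.sum_congr rfl fun x _ => ?_
    rw [Fin.prod_univ_three, ← AddChar.map_add_eq_mul, ← AddChar.map_add_eq_mul,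
      ← AddChar.map_add_eq_mul]
    congr 1; ring
  have h2 : ∑ t : ZMod p, ZMod.stdAddChar (-(t * a)) * cntS t ^ 3 = ((N * p : ℝ) : ℂ) := by
    rw [Finset.sum_congr rfl fun t _ => h1 t, Finset.sum_comm]
    simp only [cnt_orth, sub_eq_zero]
    rw [← Finset.sum_filter]
    simp [hN]
  have h3 : (N : ℝ) * p ≤ ∑ t : ZMod p, ‖cntS t‖ ^ 3 := by
    have := norm_sum_le Finset.univ fun t : ZMod p => ZMod.stdAddChar (-(t * a)) * cntS t ^ 3
    rw [h2, Complex.norm_real, Real.norm_of_nonneg (by positivity)] at this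
    refine this.trans (le_of_eq (Finset.sum_congr rfl fun t _ => ?_))
    rw [norm_mul, AddChar.norm_apply, one_mul, norm_pow]
  rw [← Finset.add_sum_erase _ _ (Finset.mem_univ (0 : ZMod p)), cnt_zero,
    Complex.norm_natCast] at h3
  set q : ℝ := ((Nat.sqrt p + 1 : ℕ) : ℝ) with hq
  have hq0 : 0 ≤ q := by positivity
  have h4 : ∑ t ∈ Finset.univ.erase (0 : ZMod p), ‖cntS t‖ ^ 3 ≤ 3 * q * (2 * (p : ℝ) ^ 2) := by
    refine le_trans ?_ (mul_le_mul_of_nonneg_left cnt_sq (by positivity))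
    rw [Finset.mul_sum]
    refine Finset.sum_le_sum fun t ht => ?_
    rw [pow_succ']
    exact mul_le_mul_of_nonneg_right (cnt_max t (Finset.ne_of_mem_erase ht)) (by positivity)
  have h5 : (N : ℝ) ≤ (p + 3 * q) ^ 2 := by
    refine le_of_mul_le_mul_right ?_ hp
    nlinarith [mul_nonneg (sq_nonneg q) hp.le]
  have h6 : ((kk p ^ 2 : ℕ) : ℝ) = (p + 3 * q) ^ 2 := by rw [hq, kk]; push_cast; ring
  exact_mod_cast h6 ▸ h5

end cntaux

theorem cnt (p : ℕ) (hp : p.Prime) (n : ℤ) (W : Finset V) (hF : ∀ P ∈ W, F P = n) :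
    (W.image (rd p)).card ≤ kk p ^ 2 := by
  have := Fact.mk hp
  refine le_trans (Finset.card_le_card fun x hx => ?_) (cnt_sol (n : ZMod p))
  obtain ⟨P, hP, rfl⟩ := Finset.mem_image.1 hx
  refine Finset.mem_filter.2 ⟨Finset.mem_univ _, ?_⟩
  rw [← hF P hP, F]
  simp [rd]

end Pool.Agent.Lib.MP_9c5702_nt.GL
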