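import Pool.Agent.Lib.MP_9c5702_nt.GL.Core
import Pool.Agent.Lib.MP_9c5702_nt.QB.Core2

/-! The count of primitive solutions. -/

set_option autoImplicit false

namespace Pool.Agent.Lib.MP_9c5702_nt.GL

open MvPolynomial Pool.Agent.Lib.MP_9c5702_nt.Q4 Pool.Agent.Lib.MP_9c5702_nt.QB
  Pool.Agent.Lib.MP_9c5702_nt.QS

lemma core4_mu {n : ℕ} {S : Finset ℕ} {a β : ℕ → ℕ} (hA : Adm2 n S a β) (hn : 1 ≤ n) :
    max 0 (mu n S a β) ≤ Real.log n := by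
  have lp : ∀ p ∈ S, 0 ≤ Real.log p := fun p _ => Real.log_natCast_nonneg p
  have N0 : 0 ≤ Real.log n := Real.log_natCast_nonneg n
  have hb := hA.sum_log_le hn
  have e5 : -(1 / 6 * ∑ p ∈ S, (β p : ℝ) * Real.log p) ≤ ∑ p ∈ S, phi (a p) (β p) * Real.log p := by
    rw [Finset.mul_sum, ← Finset.sum_neg_distrib]
    refine Finset.sum_le_sum fun p hp => ?_
    have h1 := mul_nonneg (Real.sqrt_nonneg ((a p : ℝ) * β p)) (lp p hp)
    rw [phi]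
    linarith only [h1]
  exact max_le N0 (by rw [mu]; linarith only [e5, hb, N0])

theorem core4 (ε : ℝ) (hε : 0 < ε) : ∃ C : ℝ, 0 < C ∧ ∀ (n B : ℕ) (S : Finset ℕ) (a β : ℕ → ℕ),
    1 ≤ n → Adm2 n S a β → B ^ 3 ≤ n → ∀ W : Finset V, (∀ P ∈ W, P ∈ Sol n B) →
    (W.card : ℝ) ≤ C * (n : ℝ) ^ ε * Bd3 n S a β := by
  obtain ⟨δ, hδ, rfl⟩ : ∃ δ : ℝ, 0 < δ ∧ ε = 28 * δ := ⟨ε / 28, by positivity, by ring⟩
  obtain ⟨κ, hκ⟩ := exists_nat_ge (1 / δ)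
  have hκ' : 1 ≤ δ * κ := by rwa [div_le_iff₀' hδ] at hκ
  obtain ⟨C, Y0, hC⟩ := core3 κ
  obtain ⟨Cd, hCd1, hCd⟩ := divisor_bound (show 0 < δ / 60 by positivity)
  set E : ℝ := Cd * 4 ^ δ with hE
  have hE0 : 0 < E := by positivity
  refine ⟨12 * C * ((Y0 : ℝ) + 4) ^ 12 * (E + 1) ^ 16 + 1, by positivity, ?_⟩
  intro n B S a β hn hA hB W hW
  have hn1 : (1 : ℝ) ≤ n := by exact_mod_cast hn
  have hn0 : (0 : ℝ) < n := by linarith
  have hq1 : (1 : ℝ) ≤ qq S a := by exact_mod_cast hA.qq_pos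
  have hq0 : (0 : ℝ) < qq S a := by linarith
  set Sx : ℝ := (max 1 ((n : ℝ) / (qq S a : ℝ) ^ 3)) ^ ((1 : ℝ) / 6) with hSx
  have hS1 : 1 ≤ Sx := Real.one_le_rpow (le_max_left _ _) (by norm_num)
  have hS6 : (n : ℝ) ≤ Sx ^ 6 * (qq S a : ℝ) ^ 3 := by
    have h1 := core2_root (x := max 1 ((n : ℝ) / (qq S a : ℝ) ^ 3)) (by positivity) 6 (by norm_num)
    rw [Nat.cast_ofNat] at h1
    rw [hSx, h1, ← div_le_iff₀ (by positivity)]
    exact le_max_right _ _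
  set G : ℝ := Real.exp (1 / √3 * max 0 (mu n S a β)) with hG
  have hG0 : 0 < G := Real.exp_pos _
  have hG1 : 1 ≤ G := Real.one_le_exp (mul_nonneg (by positivity) (le_max_left _ _))
  set Mx : ℝ := max G (((n : ℝ) / (qq S a : ℝ) ^ 3) ^ ((1 : ℝ) / 6)) with hMx
  have hGM : G ≤ Mx := le_max_left _ _
  have hSM : Sx ≤ Mx := by
    rcases le_total 1 ((n : ℝ) / (qq S a : ℝ) ^ 3) with c | c
    · rw [hSx, max_eq_right c]
      exact le_max_right _ _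
    · rw [hSx, max_eq_left c, Real.one_rpow]
      exact hG1.trans hGM
  have hM0 : 0 < Mx := hG0.trans_le hGM
  have hBd : Bd3 n S a β = qq S a * G * Mx := rfl
  rcases W.eq_empty_or_nonempty with rfl | ⟨P, hP⟩
  · simp only [Finset.card_empty, Nat.cast_zero, hBd]; positivity
  have hB1 : 1 ≤ B := by
    have h1 := ((hW P hP).1 0).1
    have h2 := ((hW P hP).1 0).2
    omega
  set Z : ℝ := (n : ℝ) ^ δ with hZ
  have hZ1 : 1 ≤ Z := Real.one_le_rpow hn1 hδ.le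
  set Y : ℕ := Y0 + 2 + ⌈Z⌉₊ with hY
  have hY0 : (0 : ℝ) ≤ Y0 := Nat.cast_nonneg _
  have hYZ : Z ≤ Y := by
    rw [hY]; push_cast; linarith [Nat.le_ceil Z]
  have hYle : (Y : ℝ) ≤ (Y0 + 4) * Z := by
    rw [hY]; push_cast
    have := Nat.ceil_lt_add_one (show 0 ≤ Z by linarith)
    nlinarith
  have hY1 : (1 : ℝ) ≤ Y := hZ1.trans hYZ
  have hnY : n ≤ Y ^ κ := by
    have h1 : (n : ℝ) ≤ Z ^ κ := by
      rw [hZ, ← Real.rpow_natCast, ← Real.rpow_mul hn0.le]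
      exact Real.self_le_rpow_of_one_le hn1 hκ'
    have h2 : Z ^ κ ≤ (Y : ℝ) ^ κ := pow_le_pow_left₀ (by linarith) hYZ κ
    exact_mod_cast h1.trans h2
  set T : ℕ := ⌈E * Z⌉₊ with hT
  have hTle : (T : ℝ) ≤ (E + 1) * Z := by
    have := Nat.ceil_lt_add_one (show 0 ≤ E * Z by positivity)
    rw [hT]; nlinarith
  have hTB : TB n T := by
    intro R hR1 hR
    have h1 : (R : ℝ) ≤ (4 * (n : ℝ)) ^ 60 := by exact_mod_cast hR
    have h2 : (R : ℝ) ^ (δ / 60) ≤ 4 ^ δ * Z := by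
      refine (Real.rpow_le_rpow (Nat.cast_nonneg _) h1 (by positivity)).trans (le_of_eq ?_)
      rw [← Real.rpow_natCast, ← Real.rpow_mul (by positivity), hZ,
        ← Real.mul_rpow (by norm_num) hn0.le]
      congr 1
      push_cast
      ring
    have h4 : (R.divisors.card : ℝ) ≤ E * Z := by
      refine (hCd R (by omega)).trans ?_
      rw [hE, mul_assoc]
      exact mul_le_mul_of_nonneg_left h2 (by linarith)
    exact_mod_cast h4.trans (Nat.le_ceil _)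
  have hY2 : (2 : ℝ) ≤ Y := by exact_mod_cast (by omega : 2 ≤ Y)
  set K0 : ℕ := ⌈G * (Y : ℝ) ^ 5⌉₊ with hK0
  have hGY : 1 ≤ G * (Y : ℝ) ^ 5 := one_le_mul_of_one_le_of_one_le hG1 (one_le_pow₀ hY1)
  have hK1 : G * (Y : ℝ) ^ 5 ≤ K0 := Nat.le_ceil _
  have hK2 : (K0 : ℝ) ≤ 2 * (G * (Y : ℝ) ^ 5) := by
    have := Nat.ceil_lt_add_one (show 0 ≤ G * (Y : ℝ) ^ 5 by positivity)
    rw [hK0]; linarith
  have hK3 : 1 ≤ K0 := by exact_mod_cast hGY.trans hK1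
  have hr1 : (8 / 5 : ℝ) ≤ √3 := Real.le_sqrt_of_sq_le (by norm_num)
  have hK4 : K0 ≤ Y ^ (κ + 6) := by
    have h1 : G ≤ n := by
      rw [hG, ← Real.exp_log hn0]
      refine Real.exp_le_exp.2 ?_
      have h2 := core4_mu hA hn
      have h3 : (1 : ℝ) / √3 ≤ 1 := (div_le_one (by positivity)).2 (by linarith)
      have h4 := mul_le_mul_of_nonneg_right h3 (le_max_left 0 (mu n S a β))
      linarith
    have h2 : (n : ℝ) ≤ (Y : ℝ) ^ κ := by exact_mod_cast hnY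
    have h3 : (K0 : ℝ) ≤ (Y : ℝ) ^ (κ + 6) := by
      calc (K0 : ℝ) ≤ (Y : ℝ) * ((Y : ℝ) ^ κ * (Y : ℝ) ^ 5) := by
            refine hK2.trans ?_
            gcongr
            exact h1.trans h2
        _ = _ := by ring
    exact_mod_cast h3
  have hK5 : max 0 (mu n S a β) + 8 * Real.log Y ≤ √3 * Real.log K0 := by
    have h1 := Real.log_le_log (by positivity) hK1
    rw [Real.log_mul hG0.ne' (by positivity), hG, Real.log_exp, Real.log_pow] at h1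
    have h2 := mul_le_mul_of_nonneg_left h1 (Real.sqrt_nonneg 3)
    have h3 : √3 * (1 / √3 * max 0 (mu n S a β)) = max 0 (mu n S a β) := by field_simp
    have h4 := mul_le_mul_of_nonneg_right hr1 (Real.log_nonneg hY1)
    rw [mul_add, h3] at h2
    push_cast at h2
    linarith
  set L : ℕ := ⌈3 * Sx * Y⌉₊ with hL
  have hSY : 1 ≤ Sx * Y := one_le_mul_of_one_le_of_one_le hS1 hY1
  have hLle : (L : ℝ) ≤ 4 * Sx * Y := by
    have := Nat.ceil_lt_add_one (show 0 ≤ 3 * Sx * Y by positivity)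
    rw [hL]; nlinarith
  have hLY : (Y : ℝ) ≤ L := by
    refine le_trans ?_ (Nat.le_ceil _)
    nlinarith
  have hL2 : Y ≤ L ^ 2 := by
    have h1 : (Y : ℝ) ≤ (L : ℝ) ^ 2 := by nlinarith
    exact_mod_cast h1
  have hL6 : 256 * n * Y ^ 3 ≤ L ^ 6 * qq S a ^ 3 := by
    have h1 : (3 * Sx * Y) ^ 6 ≤ (L : ℝ) ^ 6 := pow_le_pow_left₀ (by positivity) (Nat.le_ceil _) 6
    have h2 : (Y : ℝ) ^ 3 ≤ (Y : ℝ) ^ 6 := pow_le_pow_right₀ hY1 (by norm_num)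
    have h4 : 256 * (n : ℝ) * (Y : ℝ) ^ 3 ≤ (3 * Sx * Y) ^ 6 * (qq S a : ℝ) ^ 3 := by
      calc 256 * (n : ℝ) * (Y : ℝ) ^ 3
          ≤ 3 ^ 6 * (Sx ^ 6 * (qq S a : ℝ) ^ 3) * (Y : ℝ) ^ 6 := by
            gcongr
            norm_num
        _ = _ := by ring
    have h5 : (3 * Sx * Y) ^ 6 * (qq S a : ℝ) ^ 3 ≤ (L : ℝ) ^ 6 * (qq S a : ℝ) ^ 3 := by gcongr
    exact_mod_cast h4.trans h5
  have hmain := hC n B Y T L K0 S a β hA hB1 hB (by omega) hnY hTB hK3 hK4 hK5 hL2 hL6 W hW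
  have h1 : (W.card : ℝ) ≤ C * qq S a * (K0 : ℝ) * (L + (Y : ℝ) ^ 2 * K0) * (T : ℝ) ^ 16 := by
    exact_mod_cast hmain
  have h4 : (n : ℝ) ^ (28 * δ) = Z ^ 28 := by
    rw [hZ, ← Real.rpow_natCast, ← Real.rpow_mul hn0.le]
    congr 1
    push_cast
    ring
  have h5 : L + (Y : ℝ) ^ 2 * K0 ≤ 6 * Mx * (Y : ℝ) ^ 7 := by
    have h6 : (Y : ℝ) ≤ (Y : ℝ) ^ 7 := le_self_pow₀ hY1 (by norm_num)
    have h7 : (L : ℝ) ≤ 4 * Mx * (Y : ℝ) ^ 7 := hLle.trans (by gcongr)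
    have h8 : (Y : ℝ) ^ 2 * K0 ≤ (Y : ℝ) ^ 2 * (2 * (Mx * (Y : ℝ) ^ 5)) := by
      gcongr
      exact hK2.trans (by gcongr)
    linarith
  rw [h4, hBd]
  calc (W.card : ℝ) ≤ C * qq S a * (2 * (G * ((Y0 + 4) * Z) ^ 5)) *
        (6 * Mx * ((Y0 + 4) * Z) ^ 7) * ((E + 1) * Z) ^ 16 := by
        refine h1.trans ?_
        gcongr
        · exact hK2.trans (by gcongr)
        · exact h5.trans (by gcongr)
    _ = 12 * C * ((Y0 : ℝ) + 4) ^ 12 * (E + 1) ^ 16 * Z ^ 28 * (qq S a * G * Mx) := by ring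
    _ ≤ _ := by
        gcongr
        linarith

end Pool.Agent.Lib.MP_9c5702_nt.GL
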