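import Pool.Agent.Lib.MP_9c5702_nt.QS.Defs

/-! Global determinant step for `x^3 + y^3 + z^3 = n`: notions. -/

set_option autoImplicit false

namespace Pool.Agent.Lib.MP_9c5702_nt.GL

open MvPolynomial Pool.Agent.Lib.MP_9c5702_nt.Q4 Pool.Agent.Lib.MP_9c5702_nt.QB
  Pool.Agent.Lib.MP_9c5702_nt.QS

abbrev PQ := MvPolynomial (Fin 3) ℚ

/-- value of a rational polynomial at an integer point -/
noncomputable def ev (P : V) (G : PQ) : ℚ := eval (fun k => (P k : ℚ)) G

/-- reduction of a point modulo `p` -/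
def rd (p : ℕ) (P : V) : Fin 3 → ZMod p := fun k => (P k : ZMod p)

/-- square root of the bound for the number of points modulo `p` -/
def kk (p : ℕ) : ℕ := p + 3 * (Nat.sqrt p + 1)

/-- the primes used in the global step -/
def GA (Y D m : ℕ) : Finset ℕ := (Finset.Ioc Y D).filter fun p => p.Prime ∧ ¬ p ∣ m

noncomputable def Bd3 (n : ℕ) (S : Finset ℕ) (a β : ℕ → ℕ) : ℝ :=
  (qq S a : ℝ) * Real.exp (1 / √3 * max 0 (mu n S a β)) *
    max (Real.exp (1 / √3 * max 0 (mu n S a β))) (((n : ℝ) / (qq S a : ℝ) ^ 3) ^ ((1 : ℝ) / 6))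

end Pool.Agent.Lib.MP_9c5702_nt.GL
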