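import Pool.Agent.Lib.MP_9c5702_nt.GL.Defs
import Pool.Agent.Lib.MP_9c5702_nt.QB.Det3

/-! A determinant whose columns lie in several local charts. -/

set_option autoImplicit false

namespace Pool.Agent.Lib.MP_9c5702_nt.GL

open MvPolynomial Pool.Agent.Lib.MP_9c5702_nt.Q4 Pool.Agent.Lib.MP_9c5702_nt.QB
  Pool.Agent.Lib.MP_9c5702_nt.QS

lemma detk_count {ι κ : Type} [Fintype ι] (T : Finset κ) (φ : ι → κ × (Fin 2 →₀ ℕ))
    (hT : ∀ r, (φ r).1 ∈ T) (hφ : Function.Injective φ) (τ : ℕ) :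
    τ * Fintype.card ι ≤
      ∑ r, ((φ r).2 0 + (φ r).2 1) + ∑ k ∈ Finset.Icc 1 τ, T.card * Nb 1 k := by
  classical
  have h1 : ∀ k, (Finset.univ.filter fun r => (φ r).2 0 + (φ r).2 1 < k).card ≤
      T.card * Nb 1 k := by
    intro k
    rw [Nb, ← Finset.card_product]
    refine Finset.card_le_card_of_injOn (fun r => ((φ r).1, ((φ r).2 0, (φ r).2 1)))
      (fun r hr => ?_) fun r _ r' _ h => hφ ?_
    · have h2 := (Finset.mem_filter.1 (Finset.mem_coe.1 hr)).2
      refine Finset.mem_coe.2 (Finset.mem_product.2 ⟨hT r, Finset.mem_filter.2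
        ⟨Finset.mem_product.2 ⟨Finset.mem_range.2 ?_, Finset.mem_range.2 ?_⟩, ?_⟩⟩)
      · change (φ r).2 0 < k
        omega
      · change (φ r).2 1 < k
        omega
      · change (φ r).2 0 + 1 * (φ r).2 1 < k
        omega
    · have h5 : (φ r).1 = (φ r').1 := (Prod.ext_iff.1 h).1
      have h6 : ((φ r).2 0, (φ r).2 1) = ((φ r').2 0, (φ r').2 1) := congrArg Prod.snd h
      refine Prod.ext h5 ?_
      ext j
      fin_cases j
      · exact congrArg Prod.fst h6
      · exact congrArg Prod.snd h6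
  have h2 : ∑ k ∈ Finset.Icc 1 τ,
      (Finset.univ.filter fun r => ¬ (φ r).2 0 + (φ r).2 1 < k).card ≤
      ∑ r, ((φ r).2 0 + (φ r).2 1) := by
    simp only [Finset.card_filter]
    rw [Finset.sum_comm]
    refine Finset.sum_le_sum fun r _ => ?_
    rw [← Finset.card_filter]
    refine (Finset.card_le_card (t := Finset.Icc 1 ((φ r).2 0 + (φ r).2 1))
      fun k hk => ?_).trans ?_
    · rw [Finset.mem_filter, Finset.mem_Icc] at hk
      rw [Finset.mem_Icc]
      omega
    · rw [Nat.card_Icc]; omega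
  have h3 : τ * Fintype.card ι = ∑ k ∈ Finset.Icc 1 τ,
      ((Finset.univ.filter fun r => (φ r).2 0 + (φ r).2 1 < k).card +
        (Finset.univ.filter fun r => ¬ (φ r).2 0 + (φ r).2 1 < k).card) := by
    simp only [Finset.card_filter_add_card_filter_not, Finset.card_univ, Finset.sum_const,
      Nat.card_Icc, smul_eq_mul, Nat.add_sub_cancel]
  rw [h3, Finset.sum_add_distrib, add_comm]
  exact Nat.add_le_add h2 (Finset.sum_le_sum fun k _ => h1 k)

lemma detk_mono {ι κ : Type} [Fintype ι] [DecidableEq ι] (π : ℤ) (u t : ι → ℤ) (c : κ → ι → ℤ)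
    (T : Finset κ) (hu : ∀ i, π ∣ u i) (ht : ∀ i, π ∣ t i) (w τ : ℕ)
    (hw : w + ∑ k ∈ Finset.Icc 1 τ, T.card * Nb 1 k ≤ τ * Fintype.card ι)
    (φ : ι → κ × (Fin 2 →₀ ℕ)) (hT : ∀ r, (φ r).1 ∈ T) :
    π ^ w ∣ (Matrix.of fun r i => c (φ r).1 i * (u i ^ (φ r).2 0 * t i ^ (φ r).2 1)).det := by
  by_cases hφ : Function.Injective φ
  · choose u' hu' using hu
    choose t' ht' using ht
    have h1 : (Matrix.of fun r i => c (φ r).1 i * (u i ^ (φ r).2 0 * t i ^ (φ r).2 1)) =
        Matrix.of fun r i => π ^ ((φ r).2 0 + (φ r).2 1) *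
          (Matrix.of fun r i => c (φ r).1 i * (u' i ^ (φ r).2 0 * t' i ^ (φ r).2 1)) r i := by
      ext r i
      simp only [Matrix.of_apply]
      rw [hu' i, ht' i, mul_pow, mul_pow, pow_add]
      ring
    rw [h1, Matrix.det_mul_column, Finset.prod_pow_eq_pow_sum]
    have h2 := detk_count T φ hT hφ τ
    exact (pow_dvd_pow π (by omega)).mul_right _
  · obtain ⟨r, r', h1, h2⟩ := Function.not_injective_iff.1 hφ
    rw [Matrix.det_zero_of_row_eq h2 (by funext i; simp only [Matrix.of_apply, h1])]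
    exact dvd_zero _

theorem detK {ι κ : Type} [Fintype ι] [DecidableEq ι] (π : ℤ) (u t : ι → ℤ) (lab : ι → κ)
    (T : Finset κ) (hT : ∀ i, lab i ∈ T) (hu : ∀ i, π ∣ u i) (ht : ∀ i, π ∣ t i) (w τ : ℕ)
    (hw : w + ∑ k ∈ Finset.Icc 1 τ, T.card * Nb 1 k ≤ τ * Fintype.card ι) (A : Matrix ι ι ℤ)
    (g : ι → κ → MvPolynomial (Fin 2) ℤ)
    (hA : ∀ r i, π ^ w ∣ A r i - eval ![u i, t i] (g r (lab i))) : π ^ w ∣ A.det := by
  classical
  have hB : π ^ w ∣ (Matrix.of fun r i => eval ![u i, t i] (g r (lab i))).det := by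
    have h1 : (Matrix.of fun r i => eval ![u i, t i] (g r (lab i))) = fun r =>
        ∑ z ∈ T ×ˢ T.biUnion (fun c => (g r c).support), coeff z.2 (g r z.1) •
          fun i => (if lab i = z.1 then (1 : ℤ) else 0) * (u i ^ z.2 0 * t i ^ z.2 1) := by
      funext r i
      rw [Matrix.of_apply, eval_eq', Finset.sum_apply, Finset.sum_product,
        Finset.sum_eq_single_of_mem (lab i) (hT i) fun c _ hc => by simp [hc.symm]]
      refine (Finset.sum_subset (Finset.subset_biUnion_of_mem (fun c => (g r c).support) (hT i))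
        fun m _ hm => by rw [notMem_support_iff.1 hm, zero_mul]).trans ?_
      refine Finset.sum_congr rfl fun m _ => ?_
      simp only [Fin.prod_univ_two, Matrix.cons_val_zero, Matrix.cons_val_one, Pi.smul_apply,
        smul_eq_mul, if_true, one_mul]
    have h2 := (Matrix.detRowAlternating (n := ι) (R := ℤ)).toMultilinearMap.map_sum_finset
      (fun r (z : κ × (Fin 2 →₀ ℕ)) => coeff z.2 (g r z.1) •
        fun i => (if lab i = z.1 then (1 : ℤ) else 0) * (u i ^ z.2 0 * t i ^ z.2 1))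
      (fun r => T ×ˢ T.biUnion fun c => (g r c).support)
    rw [h1]
    refine Dvd.dvd.trans ?_ (dvd_of_eq h2.symm)
    refine Finset.dvd_sum fun φ hφ => ?_
    rw [MultilinearMap.map_smul_univ, smul_eq_mul]
    exact (detk_mono π u t (fun c i => if lab i = c then 1 else 0) T hu ht w τ hw φ
      fun r => (Finset.mem_product.1 (Fintype.mem_piFinset.1 hφ r)).1).mul_left _
  have h3 : (Ideal.Quotient.mk (Ideal.span {π ^ w})).mapMatrix A =
      (Ideal.Quotient.mk (Ideal.span {π ^ w})).mapMatrix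
        (Matrix.of fun r i => eval ![u i, t i] (g r (lab i))) := by
    ext r i
    exact Ideal.Quotient.eq.2 (Ideal.mem_span_singleton.2 (hA r i))
  rw [← Ideal.mem_span_singleton, ← Ideal.Quotient.eq_zero_iff_mem, RingHom.map_det, h3,
    ← RingHom.map_det, Ideal.Quotient.eq_zero_iff_mem, Ideal.mem_span_singleton]
  exact hB

end Pool.Agent.Lib.MP_9c5702_nt.GL
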