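import Pool.Agent.Lib.MP_9c5702_nt.GL.Mert

/-! The total gain of the auxiliary primes. -/

set_option autoImplicit false

namespace Pool.Agent.Lib.MP_9c5702_nt.GL

open MvPolynomial Pool.Agent.Lib.MP_9c5702_nt.Q4 Pool.Agent.Lib.MP_9c5702_nt.QB
  Pool.Agent.Lib.MP_9c5702_nt.QS

theorem gain : ∃ Y1 : ℕ, ∀ (Y E D m : ℕ) (R : Finset ℕ) (w : ℕ → ℕ) (u : ℝ), Y1 ≤ Y → E ≤ Y →
    1 ≤ m → m ≤ Y ^ E → (∀ l ∈ R, l.Prime) → (∏ l ∈ R, l) ∣ m → 205 * E < D →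
    u + 8 * Real.log Y ≤ √3 * Real.log ((D * ∏ l ∈ R, l : ℕ) : ℝ) →
    (∀ l ∈ R, √3 * (D : ℝ) ^ 3 - 3 * (D : ℝ) ^ 2 ≤ w l) →
    (∀ p ∈ GA Y D m, √3 * (D : ℝ) ^ 3 / (kk p : ℝ) - 3 * (D : ℝ) ^ 2 ≤ w p) →
    17 ≤ Real.log Y ∧
      (D : ℝ) ^ 3 * (u + 2 * Real.log Y) ≤ ∑ p ∈ R ∪ GA Y D m, (w p : ℝ) * Real.log p := by
  obtain ⟨C, hC⟩ := mert
  refine ⟨⌈Real.exp (17 + (4 * |C| + 12))⌉₊, fun Y E D m R w u hY hE hm hmY hR hd hD hu h1 h2 => ?_⟩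
  have hy : 17 + (4 * |C| + 12) ≤ Real.log Y := by
    rw [Real.le_log_iff_exp_le (lt_of_lt_of_le (Real.exp_pos _) (Nat.ceil_le.1 hY))]
    exact Nat.ceil_le.1 hY
  have Y1 : 1 ≤ Y := le_trans (Nat.one_le_ceil_iff.2 (Real.exp_pos _)) hY
  have C0 := abs_nonneg C
  have C1 := le_abs_self C
  refine ⟨by linarith, ?_⟩
  have hM := hC Y D m Y1 (by omega) hm (hmY.trans (Nat.pow_le_pow_right Y1 hE))
  have hT := theta Y D m
  have hdis : Disjoint R (GA Y D m) := Finset.disjoint_left.2 fun l hl hl' =>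
    (Finset.mem_filter.1 hl').2.2 ((Finset.dvd_prod_of_mem _ hl).trans hd)
  have hρ : Real.log ((∏ l ∈ R, l : ℕ) : ℝ) = ∑ l ∈ R, Real.log l := by
    rw [Nat.cast_prod, Real.log_prod fun l hl => by exact_mod_cast (hR l hl).ne_zero]
  have P0 : 0 < ∏ l ∈ R, l := Finset.prod_pos fun l hl => (hR l hl).pos
  have D0 : (0 : ℝ) < D := by exact_mod_cast (by omega : 0 < D)
  have hρ1 : ∑ l ∈ R, Real.log l ≤ E * Real.log Y := by
    rw [← hρ, ← Real.log_pow]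
    refine Real.log_le_log (by exact_mod_cast P0) ?_
    exact_mod_cast (Nat.le_of_dvd hm hd).trans hmY
  rw [Nat.cast_mul, Real.log_mul D0.ne' (by exact_mod_cast P0.ne'), hρ] at hu
  have a1 : (√3 * (D : ℝ) ^ 3 - 3 * (D : ℝ) ^ 2) * ∑ l ∈ R, Real.log l ≤
      ∑ l ∈ R, (w l : ℝ) * Real.log l := by
    rw [Finset.mul_sum]
    exact Finset.sum_le_sum fun l hl =>
      mul_le_mul_of_nonneg_right (h1 l hl) (Real.log_natCast_nonneg l)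
  have a2 : √3 * (D : ℝ) ^ 3 * ∑ p ∈ GA Y D m, Real.log p / (kk p : ℝ) -
      3 * (D : ℝ) ^ 2 * ∑ p ∈ GA Y D m, Real.log p ≤ ∑ p ∈ GA Y D m, (w p : ℝ) * Real.log p := by
    rw [Finset.mul_sum, Finset.mul_sum, ← Finset.sum_sub_distrib]
    refine Finset.sum_le_sum fun p hp => le_of_eq_of_le ?_
      (mul_le_mul_of_nonneg_right (h2 p hp) (Real.log_natCast_nonneg p))
    ring
  rw [Finset.sum_union hdis]
  generalize ∑ l ∈ R, (w l : ℝ) * Real.log l = A at a1 ⊢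
  generalize ∑ p ∈ GA Y D m, (w p : ℝ) * Real.log p = B at a2 ⊢
  generalize ∑ l ∈ R, Real.log l = ρ at hρ1 hu a1
  generalize ∑ p ∈ GA Y D m, Real.log p / (kk p : ℝ) = M at hM a2
  generalize ∑ p ∈ GA Y D m, Real.log p = T at hT a2
  generalize Real.log (Y : ℝ) = y at hy hM hρ1 hu ⊢
  generalize Real.log (D : ℝ) = d at hM hu
  have s0 : (0 : ℝ) ≤ √3 := Real.sqrt_nonneg 3
  have s2 : √3 ≤ (2 : ℝ) := Real.sqrt_le_iff.2 (by norm_num)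
  have hE' : 3 * (E : ℝ) ≤ D := by exact_mod_cast (by omega : 3 * E ≤ D)
  have y0 : 0 ≤ y := by linarith
  have b1 : 3 * ρ ≤ D * y := by nlinarith [mul_le_mul_of_nonneg_right hE' y0]
  have b2 := mul_le_mul_of_nonneg_left b1 (sq_nonneg (D : ℝ))
  have b3 := mul_le_mul_of_nonneg_left hT (sq_nonneg (D : ℝ))
  have b4 : u + 2 * y + y + 6 ≤ √3 * (ρ + M) := by
    have c1 := mul_le_mul_of_nonneg_left hM s0
    have c2 := mul_le_mul_of_nonneg_right s2 y0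
    have c3 := mul_le_mul_of_nonneg_right s2 C0
    have c4 := mul_le_mul_of_nonneg_left C1 s0
    nlinarith
  have b5 := mul_le_mul_of_nonneg_left b4 (by positivity : (0 : ℝ) ≤ (D : ℝ) ^ 3)
  nlinarith

end Pool.Agent.Lib.MP_9c5702_nt.GL
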