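import Pool.Agent.Lib.MP_9c5702_nt.GL.Defs
import Pool.Agent.Lib.MP_9c5702_nt.QB.Wts

/-! The exponent gained with `k ^ 2` classes. -/

set_option autoImplicit false

namespace Pool.Agent.Lib.MP_9c5702_nt.GL

open MvPolynomial Pool.Agent.Lib.MP_9c5702_nt.Q4 Pool.Agent.Lib.MP_9c5702_nt.QB
  Pool.Agent.Lib.MP_9c5702_nt.QS

lemma wtk_sum (m : ℕ) : 6 * ∑ j ∈ Finset.Icc 1 m, Nb 1 j ≤ (m + 1) ^ 3 := by
  induction m with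
  | zero => simp
  | succ m ih =>
    rw [Finset.sum_Icc_succ_top (by omega)]
    have := wts_tri (m + 1)
    nlinarith

theorem wtK (k D s : ℕ) (hk : 1 ≤ k) (hs : 2 * s = 3 * D ^ 2 + 3 * D + 2) :
    ∃ w τ : ℕ, w + ∑ j ∈ Finset.Icc 1 τ, k ^ 2 * Nb 1 j ≤ τ * s ∧
      √3 * (D : ℝ) ^ 3 / k - 3 * (D : ℝ) ^ 2 ≤ w := by
  have k0 : (0 : ℝ) < k := by exact_mod_cast hk
  obtain ⟨t, ht⟩ : ∃ t : ℝ, t = √3 * D / k := ⟨_, rfl⟩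
  have t0 : 0 ≤ t := by rw [ht]; positivity
  have e1 : √3 * (D : ℝ) ^ 3 / k = (D : ℝ) ^ 2 * t := by rw [ht]; ring
  have e2 : (k : ℝ) ^ 2 * t ^ 2 = 3 * (D : ℝ) ^ 2 := by
    rw [ht, div_pow, mul_pow, Real.sq_sqrt (by norm_num)]; field_simp
  rw [e1]
  rcases lt_or_ge t 1 with h | h
  · refine ⟨0, 0, by simp, ?_⟩
    have := mul_le_mul_of_nonneg_left h.le (sq_nonneg (D : ℝ))
    rw [Nat.cast_zero]
    nlinarith [sq_nonneg (D : ℝ)]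
  obtain ⟨τ, hτ⟩ : ∃ τ, ⌊t⌋₊ = τ + 1 := ⟨⌊t⌋₊ - 1, by have := (Nat.one_le_floor_iff t).2 h; omega⟩
  have m1 : (τ : ℝ) + 1 ≤ t := by
    have := Nat.floor_le t0; rw [hτ] at this; exact_mod_cast this
  have m2 : t < (τ : ℝ) + 1 + 1 := by
    have := Nat.lt_floor_add_one t; rw [hτ] at this; exact_mod_cast this
  refine wts_cut (fun j => k ^ 2 * Nb 1 j) s τ _ ?_
  rw [← Finset.mul_sum]
  have h1 : (6 : ℝ) * ((∑ j ∈ Finset.Icc 1 τ, Nb 1 j : ℕ) : ℝ) ≤ ((τ : ℝ) + 1) ^ 3 := by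
    exact_mod_cast wtk_sum τ
  rw [Nat.cast_mul, Nat.cast_pow]
  generalize ((∑ j ∈ Finset.Icc 1 τ, Nb 1 j : ℕ) : ℝ) = X at h1 ⊢
  have h2 : (k : ℝ) ^ 2 * t ^ 2 ≤ 2 * s := by
    rw [e2]; exact_mod_cast (by omega : 3 * D ^ 2 ≤ 2 * s)
  have τ0 : (0 : ℝ) ≤ τ := Nat.cast_nonneg τ
  obtain ⟨θ, hθ⟩ : ∃ θ : ℝ, (τ : ℝ) = t - θ - 1 := ⟨t - τ - 1, by ring⟩
  have θ0 : 0 ≤ θ := by linarith
  have θ1 : θ ≤ 1 := by linarith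
  have h3 : t ^ 3 / 3 - t ^ 2 ≤ τ * (t ^ 2 / 2) - ((τ : ℝ) + 1) ^ 3 / 6 := by
    have a1 : θ ^ 2 ≤ t := by nlinarith
    have a2 := mul_le_mul_of_nonneg_left a1 t0
    have a3 : 0 ≤ θ ^ 3 := by positivity
    rw [hθ]; nlinarith
  have h4 := mul_le_mul_of_nonneg_left h3 (sq_nonneg (k : ℝ))
  have h5 := mul_le_mul_of_nonneg_left h1 (sq_nonneg (k : ℝ))
  have h6 := mul_le_mul_of_nonneg_left h2 τ0
  have e3 : (D : ℝ) ^ 2 = (k : ℝ) ^ 2 * t ^ 2 / 3 := by linarith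
  rw [e3]
  nlinarith

end Pool.Agent.Lib.MP_9c5702_nt.GL
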