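import Pool.Agent.Lib.MP_9c5702_nt.GL.DetK
import Pool.Agent.Lib.MP_9c5702_nt.QB.SChart

/-! Every good prime divides the determinant. -/

set_option autoImplicit false

namespace Pool.Agent.Lib.MP_9c5702_nt.GL

open MvPolynomial Pool.Agent.Lib.MP_9c5702_nt.Q4 Pool.Agent.Lib.MP_9c5702_nt.QB
  Pool.Agent.Lib.MP_9c5702_nt.QS

lemma gdet_iff (l : ℕ) (P P' : V) : rd l P = rd l P' ↔ Cong (l : ℤ) P' P :=
  funext_iff.trans (forall_congr' fun k => ZMod.intCast_eq_intCast_iff_dvd_sub (P k) (P' k) l)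

theorem rd_one (l : ℕ) (W : Finset V) (hp : Pw (Cong (l : ℤ)) W) : (W.image (rd l)).card ≤ 1 := by
  refine Finset.card_le_one.2 fun a ha b hb => ?_
  obtain ⟨P, hP, rfl⟩ := Finset.mem_image.1 ha
  obtain ⟨P', hP', rfl⟩ := Finset.mem_image.1 hb
  exact (gdet_iff l P P').2 (hp P' hP' P hP)

theorem gdet (p : ℕ) (hp : p.Prime) (n : ℤ) (hn : ¬ (p : ℤ) ∣ 3 * n) (W : Finset V)
    (hF : ∀ P ∈ W, F P = n) (K : ℕ) (hK : (W.image (rd p)).card ≤ K) (D : ℕ) (x : Low D → V)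
    (hx : ∀ i, x i ∈ W) (w τ : ℕ)
    (hw : w + ∑ k ∈ Finset.Icc 1 τ, K * Nb 1 k ≤ τ * (Low D).card) :
    (p : ℤ) ^ w ∣ (lowM D x).det := by
  have hC : ∀ c : Fin 3 → ZMod p, SChart (p : ℤ) (W.filter fun P => rd p P = c) := fun c =>
    schart p hp n hn _ (fun P hP => hF P (Finset.mem_filter.1 hP).1) fun P hP P' hP' =>
      (gdet_iff p P' P).1 ((Finset.mem_filter.1 hP').2.trans (Finset.mem_filter.1 hP).2.symm)
  choose u t h1 h2 using fun c => hC c w
  choose g hg using fun (r : Low D) (c : Fin 3 → ZMod p) =>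
    apx_eval (monP r.1) (fun P => P) (h2 c)
  have hm : ∀ i, x i ∈ W.filter fun P => rd p P = rd p (x i) := fun i =>
    Finset.mem_filter.2 ⟨hx i, rfl⟩
  refine detK (p : ℤ) (fun i => u (rd p (x i)) (x i)) (fun i => t (rd p (x i)) (x i))
    (fun i => rd p (x i)) (W.image (rd p)) (fun i => Finset.mem_image_of_mem _ (hx i))
    (fun i => (h1 _ _ (hm i)).1) (fun i => (h1 _ _ (hm i)).2) w τ ?_ _ g fun r i => ?_
  · rw [Fintype.card_coe]
    exact le_trans (Nat.add_le_add_left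
      (Finset.sum_le_sum fun k _ => Nat.mul_le_mul_right _ hK) w) hw
  · have := hg r _ (x i) (hm i)
    simp only [eval_monP] at this
    exact this

end Pool.Agent.Lib.MP_9c5702_nt.GL
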