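import Pool.Agent.Lib.MP_9c5702_nt.GL.Wide
import Pool.Agent.Lib.MP_9c5702_nt.AC.WideI

/-! The new statements imply the earlier ones; special cases named in the claims. -/

set_option autoImplicit false

namespace Pool.Agent.Lib.MP_9c5702_nt.GL

/-- the new square-divisor statement implies the earlier one -/
theorem implies_old_square
    (h : ∀ ε : ℝ, 0 < ε → ∃ C : ℝ, ∀ (n q : ℕ) (b : ℕ → ℕ) (M : ℝ), 1 ≤ n → 1 ≤ q →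
      (∀ p ∈ q.primeFactors, 2 * q.factorization p ≤ b p ∧ p ^ b p ∣ n) → 1 ≤ M →
      (n : ℝ) ^ ((1 : ℝ) / 3) * ∏ p ∈ q.primeFactors,
        (p : ℝ) ^ ((b p : ℝ) / 6 - √((q.factorization p : ℝ) * b p)) ≤ M →
      (r33 n : ℝ) ≤ C * (n : ℝ) ^ ε * q * M ^ (1 / √3) *
        max (M ^ (1 / √3)) (((n : ℝ) / (q : ℝ) ^ 3) ^ ((1 : ℝ) / 6))) :
    ∀ ε : ℝ, 0 < ε → ∃ C : ℝ, ∀ (n q : ℕ) (b : ℕ → ℕ), 1 ≤ n → 1 ≤ q →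
    (∀ p ∈ q.primeFactors, 2 * q.factorization p ≤ b p ∧ p ^ b p ∣ n) →
    (r33 n : ℝ) ≤ C * (n : ℝ) ^ ε * q *
      (max 1 ((n : ℝ) ^ ((1 : ℝ) / 3) * ∏ p ∈ q.primeFactors,
        (p : ℝ) ^ ((b p : ℝ) / 6 - √((q.factorization p : ℝ) * b p)))) ^ (2 / √3) *
      (max 1 ((n : ℝ) / (q : ℝ) ^ 3)) ^ ((1 : ℝ) / 6) := by
  intro ε hε
  obtain ⟨C, hC⟩ := h ε hε
  refine ⟨max C 0, fun n q b hn hq hb => ?_⟩
  obtain ⟨M, hM⟩ : ∃ M : ℝ, M = max 1 ((n : ℝ) ^ ((1 : ℝ) / 3) * ∏ p ∈ q.primeFactors,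
    (p : ℝ) ^ ((b p : ℝ) / 6 - √((q.factorization p : ℝ) * b p))) := ⟨_, rfl⟩
  have hM1 : 1 ≤ M := hM ▸ le_max_left _ _
  have h1 := hC n q b M hn hq hb hM1 (hM ▸ le_max_right _ _)
  rw [← hM]
  have hA : 1 ≤ M ^ (1 / √3) := Real.one_le_rpow hM1 (by positivity)
  have hX : 1 ≤ (max 1 ((n : ℝ) / (q : ℝ) ^ 3)) ^ ((1 : ℝ) / 6) :=
    Real.one_le_rpow (le_max_left _ _) (by norm_num)
  have hX' : ((n : ℝ) / (q : ℝ) ^ 3) ^ ((1 : ℝ) / 6) ≤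
      (max 1 ((n : ℝ) / (q : ℝ) ^ 3)) ^ ((1 : ℝ) / 6) :=
    Real.rpow_le_rpow (by positivity) (le_max_right _ _) (by norm_num)
  have h2 : max (M ^ (1 / √3)) (((n : ℝ) / (q : ℝ) ^ 3) ^ ((1 : ℝ) / 6)) ≤
      M ^ (1 / √3) * (max 1 ((n : ℝ) / (q : ℝ) ^ 3)) ^ ((1 : ℝ) / 6) :=
    max_le (le_mul_of_one_le_right (by positivity) hX)
      (hX'.trans (le_mul_of_one_le_left (by positivity) hA))
  have h3 : M ^ (2 / √3) = M ^ (1 / √3) * M ^ (1 / √3) := by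
    rw [← Real.rpow_add (by linarith)]
    congr 1
    ring
  refine h1.trans ?_
  calc C * (n : ℝ) ^ ε * q * M ^ (1 / √3) *
        max (M ^ (1 / √3)) (((n : ℝ) / (q : ℝ) ^ 3) ^ ((1 : ℝ) / 6))
      ≤ max C 0 * (n : ℝ) ^ ε * q * M ^ (1 / √3) *
        (M ^ (1 / √3) * (max 1 ((n : ℝ) / (q : ℝ) ^ 3)) ^ ((1 : ℝ) / 6)) := by
        gcongr
        exact le_max_left _ _
    _ = _ := by rw [h3]; ring

private lemma implies_gcd {n w : ℕ} (hn : 1 ≤ n) (hw : w ^ 3 ∣ n) :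
    w ^ 3 ≤ Nat.gcd n (w ^ 5) :=
  Nat.le_of_dvd (Nat.gcd_pos_of_pos_left _ hn) (Nat.dvd_gcd hw (pow_dvd_pow w (by norm_num)))

/-- the hypothesis of the earlier cube-divisor statement implies the new hypothesis -/
theorem implies_old_cube {n w : ℕ} (hn : 1 ≤ n) (hw : w ^ 3 ∣ n)
    (h : n ^ 50 ≤ w ^ 145 * Nat.gcd n (w ^ 5) ^ 22) :
    n ^ 6 ≤ w ^ 15 * Nat.gcd n (w ^ 5) ^ 11 := by
  have h1 := implies_gcd hn hw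
  have h0 : 1 ≤ Nat.gcd n (w ^ 5) := Nat.gcd_pos_of_pos_left _ hn
  obtain ⟨G, hG⟩ : ∃ G, G = Nat.gcd n (w ^ 5) := ⟨_, rfl⟩
  rw [← hG] at h h1 h0 ⊢
  refine (Nat.pow_le_pow_iff_left (n := 25) (by norm_num)).1 ?_
  have h2 : w ^ 60 ≤ G ^ 209 :=
    calc w ^ 60 = (w ^ 3) ^ 20 := by ring
      _ ≤ G ^ 20 := Nat.pow_le_pow_left h1 20
      _ ≤ G ^ 209 := Nat.pow_le_pow_right h0 (by norm_num)
  calc (n ^ 6) ^ 25 = (n ^ 50) ^ 3 := by ring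
    _ ≤ (w ^ 145 * G ^ 22) ^ 3 := Nat.pow_le_pow_left h 3
    _ = w ^ 375 * G ^ 66 * w ^ 60 := by ring
    _ ≤ w ^ 375 * G ^ 66 * G ^ 209 := Nat.mul_le_mul_left _ h2
    _ = (w ^ 15 * G ^ 11) ^ 25 := by ring

/-- a cube divisor `w ^ 3 ≥ n ^ (3 / 8)` -/
theorem implies_cube {n w : ℕ} (hn : 1 ≤ n) (hw : w ^ 3 ∣ n) (h : n ^ 3 ≤ (w ^ 3) ^ 8) :
    n ^ 6 ≤ w ^ 15 * Nat.gcd n (w ^ 5) ^ 11 :=
  calc n ^ 6 = (n ^ 3) ^ 2 := by ring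
    _ ≤ ((w ^ 3) ^ 8) ^ 2 := Nat.pow_le_pow_left h 2
    _ = w ^ 15 * (w ^ 3) ^ 11 := by ring
    _ ≤ _ := Nat.mul_le_mul_left _ (Nat.pow_le_pow_left (implies_gcd hn hw) 11)

/-- a cube-full divisor `F ≥ n ^ (3 / 7)` -/
theorem implies_cubefull {n F : ℕ} (hn : 1 ≤ n) (hF : F ∣ n)
    (hf : ∀ p : ℕ, p.Prime → p ∣ F → p ^ 3 ∣ F) (h : n ^ 3 ≤ F ^ 7) :
    ∃ w : ℕ, w ^ 3 ∣ n ∧ n ^ 6 ≤ w ^ 15 * Nat.gcd n (w ^ 5) ^ 11 := by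
  have hF1 : 1 ≤ F := Nat.pos_of_dvd_of_pos hF hn
  obtain ⟨w, h3, h5⟩ := AC.cubefull_split hF1 hf
  refine ⟨w, h3.trans hF, ?_⟩
  have hw : 1 ≤ w := Nat.pos_of_ne_zero fun h0 => by
    rw [h0] at h3
    simp at h3
    omega
  have h6 : F ≤ w ^ 5 := Nat.le_of_dvd (Nat.pow_pos hw) h5
  have h7 : F ≤ Nat.gcd n (w ^ 5) :=
    Nat.le_of_dvd (Nat.gcd_pos_of_pos_left _ hn) (Nat.dvd_gcd hF h5)
  calc n ^ 6 = (n ^ 3) ^ 2 := by ring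
    _ ≤ (F ^ 7) ^ 2 := Nat.pow_le_pow_left h 2
    _ = F ^ 3 * F ^ 11 := by ring
    _ ≤ (w ^ 5) ^ 3 * Nat.gcd n (w ^ 5) ^ 11 := by gcongr
    _ = w ^ 15 * Nat.gcd n (w ^ 5) ^ 11 := by ring

example := implies_old_square main

end Pool.Agent.Lib.MP_9c5702_nt.GL
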