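import Pool.Agent.Lib.MP_9c5702_nt.GL.Defs
import Pool.Agent.Lib.MP_9c5702_nt.QS.Red

/-! Removing a cube does not increase the bound. -/

set_option autoImplicit false

namespace Pool.Agent.Lib.MP_9c5702_nt.GL

open MvPolynomial Pool.Agent.Lib.MP_9c5702_nt.Q4 Pool.Agent.Lib.MP_9c5702_nt.QB
  Pool.Agent.Lib.MP_9c5702_nt.QS

lemma red_real3 {x y u u' w w' : ℝ} (hx : 0 ≤ x) (hy : 0 ≤ y) (h1 : u' ≤ u + √3 / 2 * x)
    (h3 : w' ≤ w + 3 * (x - y)) :
    1 / √3 * max 0 u' + max (1 / √3 * max 0 u') (w' * (1 / 6)) ≤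
      x + (1 / √3 * max 0 u + max (1 / √3 * max 0 u) (w * (1 / 6))) := by
  have h0 : (0 : ℝ) < √3 := by positivity
  have hg : (0 : ℝ) ≤ 1 / √3 := by positivity
  have e1 : 1 / √3 * (√3 / 2 * x) = x / 2 := by field_simp
  have k0 : max 0 u' ≤ max 0 u + √3 / 2 * x :=
    max_le (by positivity) (h1.trans (by gcongr; exact le_max_right _ _))
  have k1 := mul_le_mul_of_nonneg_left k0 hg
  rw [mul_add, e1] at k1
  generalize 1 / √3 * max 0 u = U at *
  generalize 1 / √3 * max 0 u' = U' at *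
  have a1 := le_max_left U (w * (1 / 6))
  have a2 := le_max_right U (w * (1 / 6))
  have a3 : max U' (w' * (1 / 6)) ≤ max U (w * (1 / 6)) + x / 2 :=
    max_le (by linarith) (by linarith)
  linarith

lemma red_form3 {n q : ℝ} (hn : 0 < n) (hq : 0 < q) (v : ℝ) :
    q * Real.exp v * max (Real.exp v) ((n / q ^ 3) ^ ((1 : ℝ) / 6)) =
      Real.exp (Real.log q + (v + max v ((Real.log n - 3 * Real.log q) * (1 / 6)))) := by
  have ht : 0 < n / q ^ 3 := by positivity
  have hl : Real.log (n / q ^ 3) = Real.log n - 3 * Real.log q := by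
    rw [Real.log_div hn.ne' (by positivity), Real.log_pow]
    push_cast
    ring
  rw [Real.rpow_def_of_pos ht, hl, ← Real.exp_monotone.map_max, Real.exp_add, Real.exp_add,
    Real.exp_log hq, mul_assoc]

theorem red_step3 (n d m : ℕ) (hd : 1 ≤ d) (hm : 1 ≤ m) (h : n = d ^ 3 * m) (S : Finset ℕ)
    (a β : ℕ → ℕ) (hA : Adm2 n S a β) :
    ∃ a' β' : ℕ → ℕ, Adm2 m S a' β' ∧ Bd3 m S a' β' ≤ Bd3 n S a β := by
  have hd0 : d ≠ 0 := by omega
  have hm0 : m ≠ 0 := by omega
  have hS : ∀ p ∈ S, p.Prime := fun p hp => (hA p hp).1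
  have hβ : ∀ p ∈ S, β p ≤ m.factorization p + 3 * d.factorization p := fun p hp =>
    red_exp_le hd hm h (hS p hp) (hA p hp).2.2
  obtain ⟨a', ha'⟩ : ∃ a' : ℕ → ℕ, ∀ p, a' p = min (a p) (m.factorization p / 2) :=
    ⟨_, fun _ => rfl⟩
  obtain ⟨β', hβ'⟩ : ∃ β' : ℕ → ℕ, ∀ p, β' p = if 2 * a p ≤ m.factorization p then
      min (β p) (m.factorization p) else 2 * (m.factorization p / 2) := ⟨_, fun _ => rfl⟩
  have hA' : Adm2 m S a' β' := by
    intro p hp
    have h1 := (hA p hp).2.1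
    refine ⟨hS p hp, ?_, ((hS p hp).pow_dvd_iff_le_factorization hm0).2 ?_⟩
    · rw [ha', hβ']
      split_ifs <;> omega
    · rw [hβ']
      split_ifs <;> omega
  refine ⟨a', β', hA', ?_⟩
  have hδ : (∏ p ∈ S, p ^ d.factorization p) ≤ d :=
    Nat.le_of_dvd hd (prod_pow_dvd hS fun p hp =>
      ((hS p hp).pow_dvd_iff_le_factorization hd0).2 le_rfl)
  have hδ0 : 0 < ∏ p ∈ S, p ^ d.factorization p :=
    Finset.prod_pos fun p hp => pow_pos (hS p hp).pos _
  have hq'q : qq S a' ≤ qq S a :=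
    Finset.prod_le_prod' fun p hp => Nat.pow_le_pow_right (hS p hp).pos
      (by rw [ha']; exact min_le_left _ _)
  have hq' : (0 : ℝ) < qq S a' := by exact_mod_cast hA'.qq_pos
  have hq : (0 : ℝ) < qq S a := by exact_mod_cast hA.qq_pos
  have hdR : (1 : ℝ) ≤ d := by exact_mod_cast hd
  have hmR : (1 : ℝ) ≤ m := by exact_mod_cast hm
  have hnR : (n : ℝ) = (d : ℝ) ^ 3 * m := by rw [h]; push_cast; ring
  have hn0 : (0 : ℝ) < n := by rw [hnR]; positivity
  have hlogδ : ∑ p ∈ S, (d.factorization p : ℝ) * Real.log p ≤ Real.log d := by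
    rw [← log_prod_pow _ hS]
    exact Real.log_le_log (by exact_mod_cast hδ0) (by exact_mod_cast hδ)
  have hy : 0 ≤ ∑ p ∈ S, (d.factorization p : ℝ) * Real.log p :=
    Finset.sum_nonneg fun p _ => mul_nonneg (Nat.cast_nonneg _) (Real.log_natCast_nonneg p)
  have hlogn : Real.log n = 3 * Real.log d + Real.log m := by
    rw [hnR, Real.log_mul (by positivity) (by positivity), Real.log_pow]
    push_cast
    ring
  have hx : 0 ≤ Real.log (qq S a) - Real.log (qq S a') :=
    sub_nonneg.2 (Real.log_le_log hq' (by exact_mod_cast hq'q))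
  have hsum1 : ∑ p ∈ S, phi (a p) (β p) * Real.log p - ∑ p ∈ S, phi (a' p) (β' p) * Real.log p ≤
      ∑ p ∈ S, (d.factorization p : ℝ) * Real.log p +
        √3 / 2 * (∑ p ∈ S, (a p : ℝ) * Real.log p - ∑ p ∈ S, (a' p : ℝ) * Real.log p) := by
    rw [← Finset.sum_sub_distrib, ← Finset.sum_sub_distrib, Finset.mul_sum,
      ← Finset.sum_add_distrib]
    refine Finset.sum_le_sum fun p hp => ?_
    have h1 := (phi_step2 (a p) (β p) (m.factorization p) (d.factorization p) (a' p) (β' p)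
      (hA p hp).2.1 (hβ p hp) (ha' p) (hβ' p)).1
    have h3 := mul_le_mul_of_nonneg_right h1 (Real.log_natCast_nonneg p)
    linarith
  have hmu1 : mu m S a' β' ≤
      mu n S a β + √3 / 2 * (Real.log (qq S a) - Real.log (qq S a')) := by
    rw [mu, mu, qq, qq, log_prod_pow _ hS, log_prod_pow _ hS, hlogn]
    linarith
  have hw : Real.log m - 3 * Real.log (qq S a') ≤ Real.log n - 3 * Real.log (qq S a) +
      3 * (Real.log (qq S a) - Real.log (qq S a') -
        ∑ p ∈ S, (d.factorization p : ℝ) * Real.log p) := by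
    rw [hlogn]
    linarith
  have key := red_real3 hx hy hmu1 hw
  rw [Bd3, Bd3, red_form3 (by positivity) hq', red_form3 hn0 hq]
  exact Real.exp_le_exp.2 (by linarith)

end Pool.Agent.Lib.MP_9c5702_nt.GL
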