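import Pool.Agent.Lib.MP_9c5702_nt.GL.Defs
import Pool.Agent.Lib.MP_aa636d_nt.WinA

/-! Sums over the primes of the global step. -/

set_option autoImplicit false

namespace Pool.Agent.Lib.MP_9c5702_nt.GL

open MvPolynomial Pool.Agent.Lib.MP_9c5702_nt.Q4 Pool.Agent.Lib.MP_9c5702_nt.QB
  Pool.Agent.Lib.MP_9c5702_nt.QS

lemma mert_term (p : ℕ) (hp : 1 ≤ p) :
    Real.log p / p - 24 * (1 / (p : ℝ) ^ ((5 : ℝ) / 4)) ≤ Real.log p / (kk p : ℝ) := by
  have h0 : (0 : ℝ) < p := by exact_mod_cast hp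
  have h1 : (1 : ℝ) ≤ p := by exact_mod_cast hp
  obtain ⟨r, hr⟩ : ∃ r : ℝ, r = (p : ℝ) ^ ((1 : ℝ) / 4) := ⟨_, rfl⟩
  have r1 : 1 ≤ r := hr ▸ Real.one_le_rpow h1 (by norm_num)
  have r4 : (p : ℝ) = r ^ 4 := by
    rw [hr, ← Real.rpow_natCast, ← Real.rpow_mul h0.le]; norm_num
  have r5 : (p : ℝ) ^ ((5 : ℝ) / 4) = r ^ 5 := by
    rw [hr, ← Real.rpow_natCast, ← Real.rpow_mul h0.le]; norm_num
  have l0 : 0 ≤ Real.log p := Real.log_nonneg h1
  have l4 : Real.log p ≤ 4 * r := by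
    have := Real.log_le_rpow_div h0.le (by norm_num : (0 : ℝ) < 1 / 4)
    rw [← hr] at this; linarith
  obtain ⟨q, hq⟩ : ∃ q : ℝ, q = (Nat.sqrt p : ℝ) := ⟨_, rfl⟩
  have q0 : 0 ≤ q := hq ▸ Nat.cast_nonneg _
  have q2 : q ≤ r ^ 2 := by
    refine abs_le_of_sq_le_sq' ?_ (by positivity) |>.2
    have : q ^ 2 ≤ p := by rw [hq]; exact_mod_cast Nat.sqrt_le' p
    nlinarith
  have hk : (kk p : ℝ) = r ^ 4 + 3 * (q + 1) := by rw [kk, hq, ← r4]; push_cast; ring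
  have r2 : 1 ≤ r ^ 2 := one_le_pow₀ r1
  have r0 : 0 < r := by linarith
  generalize Real.log p = L at l0 l4
  rw [hk, r5, r4, sub_le_iff_le_add, ← sub_le_iff_le_add', div_sub_div _ _ (by positivity)
    (by positivity), mul_one_div, div_le_div_iff₀ (by positivity) (by positivity)]
  have e1 : L * (3 * (q + 1)) ≤ 4 * r * (6 * r ^ 2) :=
    mul_le_mul l4 (by linarith) (by positivity) (by positivity)
  have e2 : L * (3 * (q + 1)) * r ^ 5 ≤ 4 * r * (6 * r ^ 2) * r ^ 5 := by gcongr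
  have e3 : 0 ≤ r ^ 4 * (q + 1) := by positivity
  nlinarith

lemma mert_div (Y m : ℕ) (B : Finset ℕ) (hY : 1 ≤ Y) (hm : 1 ≤ m) (hmY : m ≤ Y ^ Y)
    (hB : ∀ p ∈ B, p.Prime ∧ Y < p ∧ p ∣ m) : ∑ p ∈ B, Real.log p / p ≤ Real.log Y := by
  have h0 : (0 : ℝ) < Y := by exact_mod_cast hY
  have h1 : ∑ p ∈ B, Real.log p / p ≤ ∑ p ∈ B, Real.log p / Y := Finset.sum_le_sum fun p hp => by
    have : (Y : ℝ) ≤ p := by exact_mod_cast (hB p hp).2.1.le
    gcongr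
  have h2 : ∏ p ∈ B, p ≤ Y ^ Y := (Nat.le_of_dvd hm (Finset.prod_primes_dvd m
    (fun p hp => (hB p hp).1.prime) fun p hp => (hB p hp).2.2)).trans hmY
  have h3 : ∑ p ∈ B, Real.log p ≤ Y * Real.log Y := by
    rw [← Real.log_prod fun p hp => by exact_mod_cast (hB p hp).1.ne_zero, ← Real.log_pow]
    refine Real.log_le_log (Finset.prod_pos fun p hp => by exact_mod_cast (hB p hp).1.pos) ?_
    rw [← Nat.cast_prod]
    exact_mod_cast h2
  rw [← Finset.sum_div] at h1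
  exact h1.trans ((div_le_iff₀' h0).2 h3)

theorem mert : ∃ C : ℝ, ∀ Y D m : ℕ, 1 ≤ Y → 1 ≤ D → 1 ≤ m → m ≤ Y ^ Y →
    Real.log D - 2 * Real.log Y - C ≤ ∑ p ∈ GA Y D m, Real.log p / (kk p : ℝ) := by
  obtain ⟨C, hC⟩ := Pool.Agent.Lib.MP_aa636d_nt.Win.mertens_lower
  have hs : Summable fun n : ℕ => 1 / (n : ℝ) ^ ((5 : ℝ) / 4) :=
    Real.summable_one_div_nat_rpow.2 (by norm_num)
  have ht : 0 ≤ ∑' n : ℕ, 1 / (n : ℝ) ^ ((5 : ℝ) / 4) := tsum_nonneg fun n => by positivity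
  refine ⟨|C| + 24 * ∑' n : ℕ, 1 / (n : ℝ) ^ ((5 : ℝ) / 4), fun Y D m hY hD hm hmY => ?_⟩
  have lY : 0 ≤ Real.log Y := Real.log_natCast_nonneg Y
  rcases le_total Y D with h | h
  · have h1 := hC Y D hY h
    rw [← Finset.sum_filter_add_sum_filter_not _ fun p => p ∣ m, Finset.filter_filter,
      Finset.filter_filter] at h1
    have h2 := mert_div Y m ((Finset.Ioc Y D).filter fun p => p.Prime ∧ p ∣ m) hY hm hmY
      fun p hp => by
        obtain ⟨a, b, c⟩ := Finset.mem_filter.1 hp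
        exact ⟨b, (Finset.mem_Ioc.1 a).1, c⟩
    have h3 : ∑ p ∈ GA Y D m, (Real.log p / p - 24 * (1 / (p : ℝ) ^ ((5 : ℝ) / 4))) ≤
        ∑ p ∈ GA Y D m, Real.log p / (kk p : ℝ) := Finset.sum_le_sum fun p hp =>
      mert_term p (Finset.mem_filter.1 hp).2.1.one_le
    rw [Finset.sum_sub_distrib, ← Finset.mul_sum] at h3
    have h4 := hs.sum_le_tsum (GA Y D m) fun n _ => by positivity
    have h5 := le_abs_self C
    unfold GA at h3 h4 ⊢
    linarith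
  · have h1 : Real.log D ≤ Real.log Y :=
      Real.log_le_log (by exact_mod_cast hD) (by exact_mod_cast h)
    have h2 : 0 ≤ ∑ p ∈ GA Y D m, Real.log p / (kk p : ℝ) := Finset.sum_nonneg fun p _ =>
      div_nonneg (Real.log_natCast_nonneg p) (Nat.cast_nonneg _)
    have h5 := abs_nonneg C
    linarith

theorem theta (Y D m : ℕ) : ∑ p ∈ GA Y D m, Real.log p ≤ 2 * (D : ℝ) := by
  have h1 := Chebyshev.theta_le_log4_mul_x (x := (D : ℝ)) (Nat.cast_nonneg D)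
  have h2 : ∑ p ∈ GA Y D m, Real.log p ≤ Chebyshev.theta D := by
    rw [Chebyshev.theta, Nat.floor_natCast]
    refine Finset.sum_le_sum_of_subset_of_nonneg (fun p hp => ?_)
      fun p _ _ => Real.log_natCast_nonneg p
    obtain ⟨a, b, -⟩ := Finset.mem_filter.1 hp
    exact Finset.mem_filter.2 ⟨Finset.mem_Ioc.2 ⟨b.pos, (Finset.mem_Ioc.1 a).2⟩, b⟩
  have h3 : Real.log 4 ≤ 2 := by
    have : Real.log 4 = 2 * Real.log 2 := by
      rw [show (4 : ℝ) = 2 ^ 2 by norm_num, Real.log_pow]; norm_num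
    have := Real.log_two_lt_d9
    linarith
  have h4 := mul_le_mul_of_nonneg_right h3 (Nat.cast_nonneg (α := ℝ) D)
  linarith

end Pool.Agent.Lib.MP_9c5702_nt.GL
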