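import Pool.Agent.Lib.MP_9c5702_nt.GL.WideL
import Pool.Agent.Lib.MP_9c5702_nt.AC.Main

/-! A power saving for every integer with a large cube divisor. -/

set_option autoImplicit false

namespace Pool.Agent.Lib.MP_9c5702_nt.GL

open MvPolynomial Pool.Agent.Lib.MP_9c5702_nt.Q4 Pool.Agent.Lib.MP_9c5702_nt.QB
  Pool.Agent.Lib.MP_9c5702_nt.QS

theorem wide3 : ∃ C : ℝ, ∀ n w : ℕ, 1 ≤ n → w ^ 3 ∣ n →
    n ^ 6 ≤ w ^ 15 * Nat.gcd n (w ^ 5) ^ 11 →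
    (r33 n : ℝ) ≤ C * (n : ℝ) ^ ((1 : ℝ) / 3 - 1 / 10 ^ 8) := by
  obtain ⟨C1, h1⟩ := AC.main
  obtain ⟨C2, h20, h2⟩ := wide_case3
  refine ⟨max C1 0 + C2, fun n w hn hw h => ?_⟩
  obtain ⟨a, rfl⟩ := hw
  have ha : 1 ≤ a := Nat.pos_of_ne_zero fun h0 => by simp [h0] at hn
  have hw : 1 ≤ w := Nat.pos_of_ne_zero fun h0 => by simp [h0] at hn
  have hg : Nat.gcd (w ^ 3 * a) (w ^ 5) = w ^ 3 * Nat.gcd a (w ^ 2) := by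
    rw [show w ^ 5 = w ^ 3 * w ^ 2 by ring, Nat.gcd_mul_left]
  have h3 : a ^ 6 ≤ w ^ 30 * Nat.gcd a (w ^ 2) ^ 11 := by
    rw [hg] at h
    refine Nat.le_of_mul_le_mul_left (c := w ^ 18) ?_ (Nat.pow_pos hw)
    calc w ^ 18 * a ^ 6 = (w ^ 3 * a) ^ 6 := by ring
      _ ≤ w ^ 15 * (w ^ 3 * Nat.gcd a (w ^ 2)) ^ 11 := h
      _ = w ^ 18 * (w ^ 30 * Nat.gcd a (w ^ 2) ^ 11) := by ring
  rw [mul_comm (w ^ 3) a]
  have hp : (0 : ℝ) ≤ ((a * w ^ 3 : ℕ) : ℝ) ^ ((1 : ℝ) / 3 - 1 / 10 ^ 8) := by positivity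
  have h10 : (0 : ℝ) ≤ max C1 0 := le_max_right _ _
  have h11 : C1 ≤ max C1 0 := le_max_left _ _
  rcases le_total (a ^ 5) (w ^ 6) with h4 | h4
  · exact (h1 a w ha hw h4).trans (mul_le_mul_of_nonneg_right (by linarith) hp)
  · exact (h2 a w _ ha hw (Nat.gcd_dvd_left _ _) (Nat.gcd_dvd_right _ _) h4 h3).trans
      (mul_le_mul_of_nonneg_right (by linarith) hp)

end Pool.Agent.Lib.MP_9c5702_nt.GL
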