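import Pool.Agent.Lib.MP_9c5702_nt.GL.Main
import Pool.Agent.Lib.MP_9c5702_nt.AC.WideL

/-! Large cofactors of a cube. -/

set_option autoImplicit false

namespace Pool.Agent.Lib.MP_9c5702_nt.GL

open MvPolynomial Pool.Agent.Lib.MP_9c5702_nt.Q4 Pool.Agent.Lib.MP_9c5702_nt.QB
  Pool.Agent.Lib.MP_9c5702_nt.QS

lemma widel_num {x y z : ℝ} (hx : 0 ≤ x) (hy : 0 ≤ y) (hz : 0 ≤ z) (h1 : 6 * y ≤ 5 * x)
    (h2 : 6 * x ≤ 30 * y + 11 * z) :
    (x + 3 * y) * (2 / 10 ^ 9) + y +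
      max 0 ((x + 3 * y) * (1 / 3) + (y * (1 / 2 - √3) + z * (-1 / 12))) * (1 / √3) +
      max (max 0 ((x + 3 * y) * (1 / 3) + (y * (1 / 2 - √3) + z * (-1 / 12))) * (1 / √3))
        (x * (1 / 6)) ≤ (x + 3 * y) * (1 / 3 - 1 / 10 ^ 8) := by
  have h5 : √3 * √3 = (3 : ℝ) := Real.mul_self_sqrt (by norm_num)
  have h6 : (0 : ℝ) < √3 := Real.sqrt_pos.2 (by norm_num)
  have h7 : √3 ≤ (17321 / 10000 : ℝ) := by
    rw [Real.sqrt_le_iff]
    norm_num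
  have h9 : (1732 / 1000 : ℝ) ≤ √3 := by
    apply Real.le_sqrt_of_sq_le
    norm_num
  have h8 : (1 : ℝ) / √3 = √3 / 3 := by
    rw [div_eq_div_iff h6.ne' (by norm_num)]
    linear_combination (-1) * h5
  rcases le_total 0 ((x + 3 * y) * (1 / 3) + (y * (1 / 2 - √3) + z * (-1 / 12))) with h | h
  · rw [max_eq_right h, h8]
    have e : ((x + 3 * y) * (1 / 3) + (y * (1 / 2 - √3) + z * (-1 / 12))) * (√3 / 3) =
        1 / 9 * (√3 * x) + 1 / 2 * (√3 * y) - y - 1 / 36 * (√3 * z) := by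
      linear_combination (-(1 / 3) * y) * h5
    have b1 : √3 * x ≤ 17321 / 10000 * x := mul_le_mul_of_nonneg_right h7 hx
    have b2 : √3 * y ≤ 17321 / 10000 * y := mul_le_mul_of_nonneg_right h7 hy
    have b3 : 1732 / 1000 * z ≤ √3 * z := mul_le_mul_of_nonneg_right h9 hz
    rw [e]
    rcases le_total (1 / 9 * (√3 * x) + 1 / 2 * (√3 * y) - y - 1 / 36 * (√3 * z)) (x * (1 / 6))
      with c | c
    · rw [max_eq_right c]
      linarith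
    · rw [max_eq_left c]
      linarith
  · rw [max_eq_left h, zero_mul, max_eq_right (by positivity)]
    linarith

theorem wide_case3 : ∃ C : ℝ, 0 ≤ C ∧ ∀ a w g : ℕ, 1 ≤ a → 1 ≤ w → g ∣ a → g ∣ w ^ 2 →
    w ^ 6 ≤ a ^ 5 → a ^ 6 ≤ w ^ 30 * g ^ 11 →
    (r33 (a * w ^ 3) : ℝ) ≤ C * ((a * w ^ 3 : ℕ) : ℝ) ^ ((1 : ℝ) / 3 - 1 / 10 ^ 8) := by
  obtain ⟨C, hC⟩ := GL.main (2 / 10 ^ 9) (by positivity)
  refine ⟨max C 0, le_max_right _ _, fun a w g ha hw hga hgw h1 h2 => ?_⟩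
  have hn : 1 ≤ a * w ^ 3 := Nat.mul_pos ha (Nat.pow_pos hw)
  have hg : 1 ≤ g := Nat.pos_of_dvd_of_pos hga ha
  have hP := AC.wide_prod hw hg hgw
  have h3 := hC (a * w ^ 3) w (fun p => 3 * w.factorization p + g.factorization p)
    (max 1 (((a * w ^ 3 : ℕ) : ℝ) ^ ((1 : ℝ) / 3) *
      ((w : ℝ) ^ ((1 : ℝ) / 2 - √3) * (g : ℝ) ^ (-(1 : ℝ) / 12)))) hn hw
    (fun p _ => ⟨by omega, by
      rw [pow_add, mul_comm 3, pow_mul, mul_comm]
      exact mul_dvd_mul ((Nat.ordProj_dvd g p).trans hga)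
        (pow_dvd_pow_of_dvd (Nat.ordProj_dvd w p) 3)⟩) (le_max_left _ _)
    (le_trans (mul_le_mul_of_nonneg_left hP (by positivity)) (le_max_right _ _))
  have ha1 : (1 : ℝ) ≤ a := by exact_mod_cast ha
  have hw1 : (1 : ℝ) ≤ w := by exact_mod_cast hw
  have hg1 : (1 : ℝ) ≤ g := by exact_mod_cast hg
  have ha0 : (0 : ℝ) < a := by linarith
  have hw0 : (0 : ℝ) < w := by linarith
  have hg0 : (0 : ℝ) < g := by linarith
  have hnc : ((a * w ^ 3 : ℕ) : ℝ) = (a : ℝ) * (w : ℝ) ^ 3 := by push_cast; ring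
  have hn0 : (0 : ℝ) < ((a * w ^ 3 : ℕ) : ℝ) := by rw [hnc]; positivity
  have h7 : C ≤ max C 0 := le_max_left _ _
  have h70 : (0 : ℝ) ≤ max C 0 := le_max_right _ _
  have h3' : (r33 (a * w ^ 3) : ℝ) ≤ max C 0 * ((a * w ^ 3 : ℕ) : ℝ) ^ ((2 : ℝ) / 10 ^ 9) * w *
      (max 1 (((a * w ^ 3 : ℕ) : ℝ) ^ ((1 : ℝ) / 3) *
        ((w : ℝ) ^ ((1 : ℝ) / 2 - √3) * (g : ℝ) ^ (-(1 : ℝ) / 12)))) ^ (1 / √3) *
      max ((max 1 (((a * w ^ 3 : ℕ) : ℝ) ^ ((1 : ℝ) / 3) *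
        ((w : ℝ) ^ ((1 : ℝ) / 2 - √3) * (g : ℝ) ^ (-(1 : ℝ) / 12)))) ^ (1 / √3))
        ((((a * w ^ 3 : ℕ) : ℝ) / (w : ℝ) ^ 3) ^ ((1 : ℝ) / 6)) := by
    refine h3.trans ?_
    gcongr
  have hlog : Real.log ((a * w ^ 3 : ℕ) : ℝ) = Real.log a + 3 * Real.log w := by
    rw [hnc, Real.log_mul ha0.ne' (by positivity), Real.log_pow]
    norm_num
  have hx : 0 ≤ Real.log a := Real.log_nonneg ha1
  have hy : 0 ≤ Real.log w := Real.log_nonneg hw1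
  have hz : 0 ≤ Real.log g := Real.log_nonneg hg1
  have l1 : 6 * Real.log w ≤ 5 * Real.log a := by
    have h4 : (w : ℝ) ^ 6 ≤ (a : ℝ) ^ 5 := by exact_mod_cast h1
    have h5 := Real.log_le_log (by positivity) h4
    rw [Real.log_pow, Real.log_pow] at h5
    exact_mod_cast h5
  have l2 : 6 * Real.log a ≤ 30 * Real.log w + 11 * Real.log g := by
    have h4 : (a : ℝ) ^ 6 ≤ (w : ℝ) ^ 30 * (g : ℝ) ^ 11 := by exact_mod_cast h2
    have h5 := Real.log_le_log (by positivity) h4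
    rw [Real.log_mul (by positivity) (by positivity), Real.log_pow, Real.log_pow,
      Real.log_pow] at h5
    exact_mod_cast h5
  have e2 : ((a * w ^ 3 : ℕ) : ℝ) / (w : ℝ) ^ 3 = (a : ℝ) := by
    rw [hnc]
    field_simp
  have hE : ∀ t : ℝ, (max 1 (Real.exp t)) ^ (1 / √3 : ℝ) = Real.exp (max 0 t * (1 / √3)) := by
    intro t
    rw [Real.exp_mul, Real.exp_monotone.map_max, Real.exp_zero]
  rw [e2, Real.rpow_def_of_pos hn0, Real.rpow_def_of_pos hn0,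
    Real.rpow_def_of_pos hw0, Real.rpow_def_of_pos hg0, ← Real.exp_add, ← Real.exp_add, hE,
    Real.rpow_def_of_pos ha0, hlog, ← Real.exp_monotone.map_max] at h3'
  rw [Real.rpow_def_of_pos hn0, hlog]
  have h6 := Real.exp_le_exp.2 (widel_num hx hy hz l1 l2)
  rw [Real.exp_add, Real.exp_add, Real.exp_add, Real.exp_log hw0] at h6
  refine h3'.trans ?_
  refine le_trans (le_of_eq ?_) (mul_le_mul_of_nonneg_left h6 h70)
  ring

end Pool.Agent.Lib.MP_9c5702_nt.GL
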